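import Mathlib
import Pool.Agent.W829.UB.Defs

set_option autoImplicit false

open MeasureTheory Set
open Pool.Agent.W829.UB

namespace Pool.Agent.W156.UBPath

lemma mono_one (U : Finset (Finset Site)) (A : Set Site) (t : ℕ) :
    infected U A t ⊆ infected U A (t + 1) := by
  intro x hx
  exact Or.inl hx

lemma mono_add (U : Finset (Finset Site)) (A : Set Site) (t k : ℕ) :
    infected U A t ⊆ infected U A (t + k) := by
  induction k with
  | zero => exact subset_rfl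
  | succ k ih => exact ih.trans (mono_one U A (t + k))

lemma mono_le (U : Finset (Finset Site)) (A : Set Site) {s t : ℕ} (h : s ≤ t) :
    infected U A s ⊆ infected U A t := by
  obtain ⟨k, rfl⟩ := Nat.exists_eq_add_of_le h
  exact mono_add U A s k

/-- integer separating vector -/
lemma sep (X : Finset Site) (h0 : (0 : ℝ × ℝ) ∉ convexHull ℝ (real X)) :
    ∃ u1 u2 : ℤ, ∀ y ∈ X, 1 ≤ u1 * y.1 + u2 * y.2 := by
  have hfin : (real X).Finite := (X.finite_toSet).image _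
  have hcpt : IsCompact (convexHull ℝ (real X)) := Set.Finite.isCompact_convexHull ℝ hfin
  have hcl : IsClosed (convexHull ℝ (real X)) := hcpt.isClosed
  obtain ⟨f, s, hs0, hs⟩ := geometric_hahn_banach_point_closed (convex_convexHull ℝ (real X)) hcl h0
  rw [map_zero] at hs0
  set α : ℝ := f (1, 0) with hα
  set β : ℝ := f (0, 1) with hβ
  have hf : ∀ a b : ℝ, f (a, b) = a * α + b * β := by
    intro a b
    have : ((a, b) : ℝ × ℝ) = a • ((1 : ℝ), (0 : ℝ)) + b • ((0 : ℝ), (1 : ℝ)) := by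
      ext <;> simp
    rw [this, map_add, map_smul, map_smul]
    simp [hα, hβ]
  have hy : ∀ y ∈ X, s < (y.1 : ℝ) * α + (y.2 : ℝ) * β := by
    intro y hy
    rw [← hf]
    apply hs
    apply subset_convexHull
    exact ⟨y, hy, rfl⟩
  -- bound
  set B : ℝ := ∑ y ∈ X, (|(y.1 : ℝ)| + |(y.2 : ℝ)|) with hB
  have hBy : ∀ y ∈ X, |(y.1 : ℝ)| + |(y.2 : ℝ)| ≤ B := by
    intro y hy
    exact Finset.single_le_sum (f := fun y : Site => |(y.1 : ℝ)| + |(y.2 : ℝ)|)
      (fun i _ => by positivity) hy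
  obtain ⟨N, hN⟩ := exists_nat_gt ((1 + B) / s)
  have hN' : 1 + B < N * s := by
    rwa [div_lt_iff₀ hs0] at hN
  refine ⟨round ((N : ℝ) * α), round ((N : ℝ) * β), ?_⟩
  intro y hyX
  have h1 := abs_sub_round ((N : ℝ) * α)
  have h2 := abs_sub_round ((N : ℝ) * β)
  set r1 : ℤ := round ((N : ℝ) * α)
  set r2 : ℤ := round ((N : ℝ) * β)
  have hlow := hy y hyX
  have hb := hBy y hyX
  have e1 : |((N : ℝ) * α - r1) * y.1| ≤ 1 / 2 * |(y.1 : ℝ)| := by
    rw [abs_mul]
    exact mul_le_mul_of_nonneg_right h1 (abs_nonneg _)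
  have e2 : |((N : ℝ) * β - r2) * y.2| ≤ 1 / 2 * |(y.2 : ℝ)| := by
    rw [abs_mul]
    exact mul_le_mul_of_nonneg_right h2 (abs_nonneg _)
  have e1' := (abs_le.mp e1).2
  have e2' := (abs_le.mp e2).2
  have hNs : (N : ℝ) * s ≤ N * ((y.1 : ℝ) * α + (y.2 : ℝ) * β) :=
    mul_le_mul_of_nonneg_left hlow.le (Nat.cast_nonneg _)
  have key : (1 : ℝ) ≤ (r1 : ℝ) * y.1 + (r2 : ℝ) * y.2 := by
    have hp1 := abs_nonneg (y.1 : ℝ)
    have hp2 := abs_nonneg (y.2 : ℝ)
    nlinarith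
  exact_mod_cast key

/-- the escape set -/
noncomputable def esc (u1 u2 : ℤ) (R L sg : ℕ) : Finset Site :=
  ((Finset.Icc (-((R * L : ℕ) : ℤ)) ((R * L : ℕ) : ℤ)) ×ˢ
    (Finset.Icc (-((R * L : ℕ) : ℤ)) ((R * L : ℕ) : ℤ))).filter
      (fun z => (L : ℤ) ≤ u1 * z.1 + u2 * z.2 ∧ u1 * z.1 + u2 * z.2 ≤ L + sg)

lemma mem_esc {u1 u2 : ℤ} {R L sg : ℕ} {z : Site} :
    z ∈ esc u1 u2 R L sg ↔ (|z.1| ≤ (R * L : ℕ) ∧ |z.2| ≤ (R * L : ℕ)) ∧
      (L : ℤ) ≤ u1 * z.1 + u2 * z.2 ∧ u1 * z.1 + u2 * z.2 ≤ L + sg := by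
  simp only [esc, Finset.mem_filter, Finset.mem_product, Finset.mem_Icc, abs_le]

lemma card_esc {u1 u2 : ℤ} (hu : u1 ≠ 0 ∨ u2 ≠ 0) (R L sg : ℕ) :
    (esc u1 u2 R L sg).card ≤ (2 * (R * L) + 1) * (sg + 1) := by
  have hcard : ((Finset.Icc (-((R * L : ℕ) : ℤ)) ((R * L : ℕ) : ℤ)) ×ˢ
      (Finset.Icc (L : ℤ) (L + sg))).card = (2 * (R * L) + 1) * (sg + 1) := by
    rw [Finset.card_product, Int.card_Icc, Int.card_Icc]
    congr 1
    · have : ((R * L : ℕ) : ℤ) + 1 - -((R * L : ℕ) : ℤ) = ((2 * (R * L) + 1 : ℕ) : ℤ) := by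
        push_cast; ring
      rw [this, Int.toNat_natCast]
    · have : (L : ℤ) + sg + 1 - L = ((sg + 1 : ℕ) : ℤ) := by push_cast; ring
      rw [this, Int.toNat_natCast]
  rw [← hcard]
  rcases hu with hu | hu
  · apply Finset.card_le_card_of_injOn (fun z => (z.2, u1 * z.1 + u2 * z.2))
    · intro z hz
      have hz' := mem_esc.mp (Finset.mem_coe.mp hz)
      simp only [Finset.coe_product, Set.mem_prod, Finset.coe_Icc, Set.mem_Icc]
      exact ⟨abs_le.mp hz'.1.2, hz'.2⟩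
    · intro z hz w hw h
      simp only [Prod.mk.injEq] at h
      obtain ⟨h1, h2⟩ := h
      rw [h1] at h2
      have h3 : u1 * z.1 = u1 * w.1 := by linarith
      exact Prod.ext (mul_left_cancel₀ hu h3) h1
  · apply Finset.card_le_card_of_injOn (fun z => (z.1, u1 * z.1 + u2 * z.2))
    · intro z hz
      have hz' := mem_esc.mp (Finset.mem_coe.mp hz)
      simp only [Finset.coe_product, Set.mem_prod, Finset.coe_Icc, Set.mem_Icc]
      exact ⟨abs_le.mp hz'.1.1, hz'.2⟩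
    · intro z hz w hw h
      simp only [Prod.mk.injEq] at h
      obtain ⟨h1, h2⟩ := h
      rw [h1] at h2
      have h3 : u2 * z.2 = u2 * w.2 := by linarith
      exact Prod.ext h1 (mul_left_cancel₀ hu h3)

/-- one step back in time -/
lemma back {U : Finset (Finset Site)} {X : Finset Site} (hX : X ∈ U) {A : Set Site} {t : ℕ}
    {z : Site} (hz : z ∉ infected U A (t + 1)) : ∃ y ∈ X, z + y ∉ infected U A t := by
  by_contra hcon
  push Not at hcon
  exact hz (Or.inr ⟨X, hX, hcon⟩)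

/-- the path -/
lemma walk {U : Finset (Finset Site)} {X : Finset Site} (hX : X ∈ U) {u1 u2 : ℤ} {R L sg : ℕ}
    (h1 : ∀ y ∈ X, 1 ≤ u1 * y.1 + u2 * y.2) (h2 : ∀ y ∈ X, u1 * y.1 + u2 * y.2 ≤ sg)
    (hR : ∀ y ∈ X, |y.1| ≤ R ∧ |y.2| ≤ R) {A : Set Site} (n : ℕ) :
    ∀ k : ℕ, k ≤ L → ∀ z : Site, (L : ℤ) - k ≤ u1 * z.1 + u2 * z.2 →
      u1 * z.1 + u2 * z.2 ≤ L + sg → |z.1| ≤ (R : ℤ) * (L - k) → |z.2| ≤ (R : ℤ) * (L - k) →
      z ∉ infected U A (k + n) → ∃ x ∈ esc u1 u2 R L sg, x ∉ infected U A n := by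
  intro k
  induction k with
  | zero =>
    intro _ z hz1 hz2 hz3 hz4 hz
    refine ⟨z, mem_esc.mpr ⟨⟨?_, ?_⟩, ?_, hz2⟩, ?_⟩
    · push_cast; simpa using hz3
    · push_cast; simpa using hz4
    · simpa using hz1
    · simpa using hz
  | succ k ih =>
    intro hk z hz1 hz2 hz3 hz4 hz
    by_cases hL : (L : ℤ) ≤ u1 * z.1 + u2 * z.2
    · refine ⟨z, mem_esc.mpr ⟨⟨?_, ?_⟩, hL, hz2⟩, ?_⟩
      · refine hz3.trans ?_
        push_cast
        apply mul_le_mul_of_nonneg_left _ (Nat.cast_nonneg R)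
        linarith [Int.natCast_nonneg k]
      · refine hz4.trans ?_
        push_cast
        apply mul_le_mul_of_nonneg_left _ (Nat.cast_nonneg R)
        linarith [Int.natCast_nonneg k]
      · intro hcon
        exact hz (mono_le U A (by omega) hcon)
    · push Not at hL
      have hz' : z ∉ infected U A (k + n + 1) := by
        have : k + n + 1 = k + 1 + n := by ring
        rw [this]; exact hz
      obtain ⟨y, hy, hzy⟩ := back hX hz'
      have a1 := h1 y hy
      have a2 := h2 y hy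
      have a3 := hR y hy
      push_cast at hz1 hz3 hz4
      apply ih (by omega) (z + y)
      · simp only [Prod.fst_add, Prod.snd_add]
        nlinarith
      · simp only [Prod.fst_add, Prod.snd_add]
        nlinarith
      · simp only [Prod.fst_add]
        refine (abs_add_le _ _).trans ?_
        nlinarith [a3.1]
      · simp only [Prod.snd_add]
        refine (abs_add_le _ _).trans ?_
        nlinarith [a3.2]
      · exact hzy

theorem path : S_PATH := by
  intro U hne hX ρ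
  obtain ⟨X, hXU, h0⟩ := hX
  obtain ⟨u1, u2, hu⟩ := sep X h0
  obtain ⟨y0, hy0⟩ := hne X hXU
  have hu0 : u1 ≠ 0 ∨ u2 ≠ 0 := by
    by_contra hcon
    push Not at hcon
    have := hu y0 hy0
    rw [hcon.1, hcon.2] at this
    simp at this
  set a : ℕ := u1.natAbs + u2.natAbs with ha
  set R : ℕ := ∑ y ∈ X, (y.1.natAbs + y.2.natAbs) with hRdef
  have hR : ∀ y ∈ X, |y.1| ≤ (R : ℤ) ∧ |y.2| ≤ (R : ℤ) := by
    intro y hy
    have : y.1.natAbs + y.2.natAbs ≤ R :=
      Finset.single_le_sum (f := fun y : Site => y.1.natAbs + y.2.natAbs)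
        (fun i _ => Nat.zero_le _) hy
    rw [Int.abs_eq_natAbs, Int.abs_eq_natAbs]
    constructor
    · exact_mod_cast (Nat.le_add_right _ _).trans this
    · exact_mod_cast (Nat.le_add_left _ _).trans this
  have hmul : ∀ (m : ℤ) (z : Site), 0 ≤ m → |z.1| ≤ m → |z.2| ≤ m →
      u1 * z.1 + u2 * z.2 ≤ a * m := by
    intro m z hm h1 h2
    have e1 : u1 * z.1 ≤ |u1| * m := by
      calc u1 * z.1 ≤ |u1 * z.1| := le_abs_self _
        _ = |u1| * |z.1| := abs_mul _ _
        _ ≤ |u1| * m := mul_le_mul_of_nonneg_left h1 (abs_nonneg _)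
    have e2 : u2 * z.2 ≤ |u2| * m := by
      calc u2 * z.2 ≤ |u2 * z.2| := le_abs_self _
        _ = |u2| * |z.2| := abs_mul _ _
        _ ≤ |u2| * m := mul_le_mul_of_nonneg_left h2 (abs_nonneg _)
    have e3 : (a : ℤ) = |u1| + |u2| := by
      rw [ha]; push_cast; rfl
    rw [e3, add_mul]
    linarith
  set sg : ℕ := a * R with hsg
  have hsgy : ∀ y ∈ X, u1 * y.1 + u2 * y.2 ≤ sg := by
    intro y hy
    have := hmul R y (Nat.cast_nonneg _) (hR y hy).1 (hR y hy).2
    rw [hsg]; push_cast; exact this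
  refine ⟨(2 * (R * (2 * ρ * a + 1)) + 1) * (sg + 1), 2 * ρ * a + 2, by omega, ?_⟩
  intro n hn
  set L : ℕ := 2 * ρ * a * n + 1 with hL
  refine ⟨esc u1 u2 R L sg, ?_, ?_, ?_⟩
  · refine (card_esc hu0 R L sg).trans ?_
    have hLn : L ≤ (2 * ρ * a + 1) * n := by
      rw [hL]; nlinarith
    have h3 : 2 * (R * L) + 1 ≤ (2 * (R * (2 * ρ * a + 1)) + 1) * n := by
      have : R * L ≤ R * ((2 * ρ * a + 1) * n) := Nat.mul_le_mul_left R hLn
      nlinarith
    calc (2 * (R * L) + 1) * (sg + 1) ≤ ((2 * (R * (2 * ρ * a + 1)) + 1) * n) * (sg + 1) :=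
          Nat.mul_le_mul_right _ h3
      _ = (2 * (R * (2 * ρ * a + 1)) + 1) * (sg + 1) * n := by ring
  · intro x hx
    have hx' := mem_esc.mp hx
    by_contra hcon
    push Not at hcon
    have hm : (0 : ℤ) ≤ 2 * (ρ : ℤ) * n := by positivity
    have := hmul (2 * (ρ : ℤ) * n) x hm ((le_max_left _ _).trans hcon) ((le_max_right _ _).trans hcon)
    have h4 := hx'.2.1
    rw [hL] at h4
    push_cast at h4
    nlinarith
  · intro A hA
    have hle : L + n ≤ (2 * ρ * a + 2) * n := by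
      rw [hL]; nlinarith
    have h5 : (0 : Site) ∉ infected U A (L + n) := fun h => hA (mono_le U A hle h)
    apply walk hXU hu hsgy hR n L le_rfl 0
    · simp
    · simp
      positivity
    · simp
    · simp
    · exact h5

end Pool.Agent.W156.UBPath
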