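import Mathlib
import Pool.Agent.W89.VP.Defs

set_option autoImplicit false

namespace Pool.Agent.W156.PVRED

open Finset Polynomial Pool.Agent.W89.VP

/-- extend an injection to an equivalence -/
lemma ext_equiv {s t r : ℕ} (h : t + r = s) (f : Fin r → Fin s) (hf : Function.Injective f) :
    ∃ σ : Fin t ⊕ Fin r ≃ Fin s, (∀ i, σ (Sum.inr i) = f i) ∧
      ∀ i, σ (Sum.inl i) ∉ Set.range f := by
  classical
  have hc : Fintype.card ↥(Set.range f)ᶜ = t := by
    rw [Fintype.card_compl_set, Fintype.card_fin, Set.card_range_of_injective hf, Fintype.card_fin]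
    omega
  let e1 : Fin t ≃ ↥(Set.range f)ᶜ := (Fintype.equivFinOfCardEq hc).symm
  let e2 : Fin r ≃ ↥(Set.range f) := Equiv.ofInjective f hf
  refine ⟨((Equiv.sumCongr e1 e2).trans (Equiv.sumComm _ _)).trans (Equiv.Set.sumCompl (Set.range f)),
    ?_, ?_⟩
  · intro i
    simp [e2]
  · intro i
    have : (((Equiv.sumCongr e1 e2).trans (Equiv.sumComm _ _)).trans
        (Equiv.Set.sumCompl (Set.range f))) (Sum.inl i) = (e1 i : Fin s) := by
      simp
    rw [this]
    exact (e1 i).2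

/-- maximal matching -/
lemma matching {s : ℕ} (x y : Fin s → ℕ) : ∃ t r : ℕ, t + r = s ∧
    ∃ σ τ : Fin t ⊕ Fin r ≃ Fin s, (∀ i, x (σ (Sum.inr i)) = y (τ (Sum.inr i))) ∧
      ∀ i j, x (σ (Sum.inl i)) ≠ y (τ (Sum.inl j)) := by
  classical
  let P : ℕ → Prop := fun r => ∃ f g : Fin r → Fin s, Function.Injective f ∧
    Function.Injective g ∧ ∀ i, x (f i) = y (g i)
  have h0 : P 0 := ⟨Fin.elim0, Fin.elim0, fun i => i.elim0, fun i => i.elim0, fun i => i.elim0⟩
  have hle : ∀ r, P r → r ≤ s := by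
    rintro r ⟨f, g, hf, -, -⟩
    simpa using Fintype.card_le_of_injective f hf
  have hmax : P (Nat.findGreatest P s) := Nat.findGreatest_spec (Nat.zero_le s) h0
  set r := Nat.findGreatest P s with hr
  obtain ⟨f, g, hf, hg, hfg⟩ := hmax
  have hrs : r ≤ s := Nat.findGreatest_le s
  have hnot : ¬ P (r + 1) := by
    intro hP
    have h1 : r + 1 ≤ s := hle _ hP
    have h2 := Nat.le_findGreatest h1 hP
    omega
  obtain ⟨σ, hσ1, hσ2⟩ := ext_equiv (t := s - r) (r := r) (by omega) f hf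
  obtain ⟨τ, hτ1, hτ2⟩ := ext_equiv (t := s - r) (r := r) (by omega) g hg
  refine ⟨s - r, r, by omega, σ, τ, ?_, ?_⟩
  · intro i
    rw [hσ1, hτ1, hfg]
  · intro i j hij
    apply hnot
    refine ⟨Fin.cons (σ (Sum.inl i)) f, Fin.cons (τ (Sum.inl j)) g, ?_, ?_, ?_⟩
    · exact Fin.cons_injective_iff.mpr ⟨hσ2 i, hf⟩
    · exact Fin.cons_injective_iff.mpr ⟨hτ2 j, hg⟩
    · intro l
      refine Fin.cases ?_ ?_ l
      · simpa using hij
      · intro l'
        simpa using hfg l'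

/-- the map rebuilding a pair from the reduced data -/
def glue {s : ℕ} (t : ℕ) (q : ((Fin t ⊕ Fin (s - t) ≃ Fin s) × (Fin t ⊕ Fin (s - t) ≃ Fin s)) ×
    ((Fin (s - t) → ℕ) × ((Fin t → ℕ) × (Fin t → ℕ)))) : (Fin s → ℕ) × (Fin s → ℕ) :=
  (Sum.elim q.2.2.1 q.2.1 ∘ q.1.1.symm, Sum.elim q.2.2.2 q.2.1 ∘ q.1.2.symm)

lemma sum_split {s t r : ℕ} (σ : Fin t ⊕ Fin r ≃ Fin s) (x : Fin s → ℕ) (m : ℕ) :
    ∑ i, x i ^ m = ∑ i, x (σ (Sum.inl i)) ^ m + ∑ i, x (σ (Sum.inr i)) ^ m := by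
  rw [← Equiv.sum_comp σ, Fintype.sum_sum_type]

lemma cover (hN : NEWTStm) (s k N : ℕ) :
    VN s k N ⊆ (Finset.Ioc k s).biUnion (fun t =>
      (((Finset.univ : Finset ((Fin t ⊕ Fin (s - t) ≃ Fin s) × (Fin t ⊕ Fin (s - t) ≃ Fin s))) ×ˢ
        ((Fintype.piFinset fun _ : Fin (s - t) => Finset.Icc 1 N) ×ˢ VD t k N)).image (glue t))) := by
  classical
  rintro ⟨x, y⟩ hxy
  simp only [VN, VS, Finset.mem_filter, Finset.mem_product, Fintype.mem_piFinset] at hxy
  obtain ⟨⟨⟨hx, hy⟩, hsum⟩, hnd⟩ := hxy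
  obtain ⟨t, r, htr, σ, τ, hm, hd⟩ := matching x y
  obtain rfl : r = s - t := by omega
  have hsum' : ∀ j : Fin k, ∑ i : Fin t, x (σ (Sum.inl i)) ^ (j.val + 1)
      = ∑ i : Fin t, y (τ (Sum.inl i)) ^ (j.val + 1) := by
    intro j
    have h1 := hsum j
    rw [sum_split σ, sum_split τ] at h1
    have h2 : ∑ i, x (σ (Sum.inr i)) ^ (j.val + 1) = ∑ i, y (τ (Sum.inr i)) ^ (j.val + 1) :=
      Finset.sum_congr rfl (fun i _ => by rw [hm])
    omega
  have ht0 : t ≠ 0 := by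
    rintro rfl
    apply hnd
    refine ⟨τ.symm.trans σ, ?_⟩
    funext j
    obtain ⟨w, rfl⟩ := τ.surjective j
    rcases w with w | w
    · exact w.elim0
    · simp [hm]
  have htk : k < t := by
    by_contra hcon
    push Not at hcon
    have h1 := hN t k (fun i => x (σ (Sum.inl i))) (fun i => y (τ (Sum.inl i))) hsum'
    rw [Nat.sub_eq_zero_of_le hcon, Nat.cast_zero, Nat.WithBot.lt_zero_iff,
      Polynomial.degree_eq_bot] at h1
    have i0 : Fin t := ⟨0, Nat.pos_of_ne_zero ht0⟩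
    have h2 := congrArg (Polynomial.eval ((x (σ (Sum.inl i0)) : ℕ) : ℤ)) h1
    rw [Polynomial.eval_sub, Polynomial.eval_prod, Polynomial.eval_prod, Polynomial.eval_zero,
      Finset.prod_eq_zero (Finset.mem_univ i0) (by simp), zero_sub, neg_eq_zero,
      Finset.prod_eq_zero_iff] at h2
    obtain ⟨j, -, hj⟩ := h2
    simp only [Polynomial.eval_sub, Polynomial.eval_X, Polynomial.eval_C] at hj
    apply hd i0 j
    have : ((x (σ (Sum.inl i0)) : ℕ) : ℤ) = (y (τ (Sum.inl j)) : ℕ) := by linarith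
    exact_mod_cast this
  simp only [Finset.mem_biUnion, Finset.mem_image, Finset.mem_product, Finset.mem_univ, true_and,
    Finset.mem_Ioc]
  refine ⟨t, ⟨htk, by omega⟩, ⟨(σ, τ), (fun i => x (σ (Sum.inr i))),
    (fun i => x (σ (Sum.inl i))), (fun i => y (τ (Sum.inl i)))⟩, ⟨?_, ?_⟩, ?_⟩
  · rw [Fintype.mem_piFinset]
    intro i
    exact hx _
  · simp only [VD, VS, Finset.mem_filter, Finset.mem_product, Fintype.mem_piFinset]
    exact ⟨⟨⟨fun i => hx _, fun i => hy _⟩, hsum'⟩, hd⟩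
  · unfold glue
    refine Prod.ext ?_ ?_
    · funext j
      obtain ⟨w, rfl⟩ := σ.surjective j
      rcases w with w | w <;> simp
    · funext j
      obtain ⟨w, rfl⟩ := τ.surjective j
      rcases w with w | w <;> simp [hm]

theorem main (hN : NEWTStm) : REDStm := by
  classical
  intro s k
  let M : ℕ → ℕ := fun t => Fintype.card ((Fin t ⊕ Fin (s - t) ≃ Fin s) × (Fin t ⊕ Fin (s - t) ≃ Fin s))
  refine ⟨((∑ t ∈ Finset.range (s + 1), M t : ℕ) : ℝ) + 1, by positivity, ?_⟩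
  intro N _
  have h1 : (VN s k N).card ≤ ∑ t ∈ Finset.Ioc k s, M t * (N ^ (s - t) * (VD t k N).card) := by
    refine (Finset.card_le_card (cover hN s k N)).trans ?_
    refine Finset.card_biUnion_le.trans ?_
    apply Finset.sum_le_sum
    intro t _
    refine Finset.card_image_le.trans ?_
    rw [Finset.card_product, Finset.card_product, Fintype.card_piFinset]
    simp only [Nat.card_Icc, Finset.prod_const, Finset.card_univ, Fintype.card_fin,
      Nat.add_sub_cancel]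
    exact le_rfl
  have h2 : ((VN s k N).card : ℝ) ≤ ∑ t ∈ Finset.Ioc k s, (M t : ℝ) * ((N : ℝ) ^ (s - t) * ((VD t k N).card : ℝ)) := by
    exact_mod_cast h1
  refine h2.trans ?_
  rw [Finset.mul_sum]
  apply Finset.sum_le_sum
  intro t ht
  apply mul_le_mul_of_nonneg_right _ (by positivity)
  have h3 : M t ≤ ∑ t ∈ Finset.range (s + 1), M t := by
    apply Finset.single_le_sum (f := M) (fun i _ => Nat.zero_le _)
    rw [Finset.mem_range]
    have := (Finset.mem_Ioc.mp ht).2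
    omega
  have h4 : (M t : ℝ) ≤ ((∑ t ∈ Finset.range (s + 1), M t : ℕ) : ℝ) := by exact_mod_cast h3
  linarith

end Pool.Agent.W156.PVRED
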