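import Mathlib

set_option autoImplicit false

/-!
# Subdividing operation on triangle-free graphs

`ext G x y w` joins `x` and `y` and adds a vertex `w` joined to all neighbours of `x` and of `y`.
If `x` and `y` are at distance at least `4`, this keeps the graph triangle-free and does not
change the independence number.
-/

namespace Pool.Agent.W156.MIS

open Finset

/-- Join `x` and `y`, and join `w` to all neighbours of `x` and of `y`. -/
def ext (G : SimpleGraph ℕ) (x y w : ℕ) : SimpleGraph ℕ :=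
  SimpleGraph.fromRel
    (fun a b => G.Adj a b ∨ (a = x ∧ b = y) ∨ (a = w ∧ (G.Adj x b ∨ G.Adj y b)))

/-- `G` lives on the vertices below `n`, is triangle-free, and its independent sets have at most
`a` elements. -/
structure Base (a n : ℕ) (G : SimpleGraph ℕ) : Prop where
  supp : ∀ x y, G.Adj x y → x < n
  tri : ∀ x y z, G.Adj x y → G.Adj y z → G.Adj x z → False
  ind : ∀ S : Finset ℕ, (∀ x ∈ S, x < n) → (∀ x ∈ S, ∀ y ∈ S, ¬ G.Adj x y) → S.card ≤ a

/-- `x` and `y` are at distance at least `4`. -/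
structure Far (G : SimpleGraph ℕ) (x y : ℕ) : Prop where
  ne : x ≠ y
  nadj : ¬ G.Adj x y
  nn : ∀ u v, G.Adj x u → G.Adj y v → u ≠ v ∧ ¬ G.Adj u v

variable {a n : ℕ} {G : SimpleGraph ℕ} {x y : ℕ}

theorem Base.supp' (h : Base a n G) {x y : ℕ} (hxy : G.Adj x y) : y < n := h.supp y x hxy.symm

theorem ext_adj (h : Base a n G) (hx : x < n) (hy : y < n) (hf : Far G x y) (b c : ℕ) :
    (ext G x y n).Adj b c ↔ G.Adj b c ∨ (b = x ∧ c = y) ∨ (b = y ∧ c = x) ∨
      (b = n ∧ (G.Adj x c ∨ G.Adj y c)) ∨ (c = n ∧ (G.Adj x b ∨ G.Adj y b)) := by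
  unfold ext
  rw [SimpleGraph.fromRel_adj]
  constructor
  · rintro ⟨hne, (h1 | h1 | h1) | (h1 | h1 | h1)⟩
    · exact Or.inl h1
    · exact Or.inr (Or.inl h1)
    · exact Or.inr (Or.inr (Or.inr (Or.inl h1)))
    · exact Or.inl h1.symm
    · exact Or.inr (Or.inr (Or.inl ⟨h1.2, h1.1⟩))
    · exact Or.inr (Or.inr (Or.inr (Or.inr h1)))
  · rintro (h1 | h1 | h1 | h1 | h1)
    · exact ⟨h1.ne, Or.inl (Or.inl h1)⟩
    · refine ⟨?_, Or.inl (Or.inr (Or.inl h1))⟩
      rw [h1.1, h1.2]; exact hf.ne
    · refine ⟨?_, Or.inr (Or.inr (Or.inl ⟨h1.2, h1.1⟩))⟩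
      rw [h1.1, h1.2]; exact hf.ne.symm
    · refine ⟨?_, Or.inl (Or.inr (Or.inr h1))⟩
      rintro rfl
      rcases h1.2 with h2 | h2
      · exact absurd (h.supp' h2) (by rw [h1.1]; exact lt_irrefl _)
      · exact absurd (h.supp' h2) (by rw [h1.1]; exact lt_irrefl _)
    · refine ⟨?_, Or.inr (Or.inr (Or.inr h1))⟩
      rintro rfl
      rcases h1.2 with h2 | h2
      · exact absurd (h.supp' h2) (by rw [h1.1]; exact lt_irrefl _)
      · exact absurd (h.supp' h2) (by rw [h1.1]; exact lt_irrefl _)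

/-- old vertices: adjacency changes only for the pair `x, y` -/
theorem ext_adj_old (h : Base a n G) (hx : x < n) (hy : y < n) (hf : Far G x y) {b c : ℕ}
    (hb : b < n) (hc : c < n) :
    (ext G x y n).Adj b c ↔ G.Adj b c ∨ (b = x ∧ c = y) ∨ (b = y ∧ c = x) := by
  rw [ext_adj h hx hy hf]
  constructor
  · rintro (h1 | h1 | h1 | h1 | h1)
    · exact Or.inl h1
    · exact Or.inr (Or.inl h1)
    · exact Or.inr (Or.inr h1)
    · omega
    · omega
  · rintro (h1 | h1 | h1)
    · exact Or.inl h1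
    · exact Or.inr (Or.inl h1)
    · exact Or.inr (Or.inr (Or.inl h1))

/-- the new vertex -/
theorem ext_adj_new (h : Base a n G) (hx : x < n) (hy : y < n) (hf : Far G x y) (c : ℕ) :
    (ext G x y n).Adj n c ↔ G.Adj x c ∨ G.Adj y c := by
  rw [ext_adj h hx hy hf]
  constructor
  · rintro (h1 | h1 | h1 | h1 | h1)
    · exact absurd (h.supp _ _ h1) (lt_irrefl _)
    · omega
    · omega
    · exact h1.2
    · rcases h1.2 with h2 | h2
      · exact absurd (h.supp' h2) (lt_irrefl _)
      · exact absurd (h.supp' h2) (lt_irrefl _)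
  · intro h1
    exact Or.inr (Or.inr (Or.inr (Or.inl ⟨rfl, h1⟩)))

theorem ext_tri (h : Base a n G) (hx : x < n) (hy : y < n) (hf : Far G x y) (b c e : ℕ)
    (h1 : (ext G x y n).Adj b c) (h2 : (ext G x y n).Adj c e) (h3 : (ext G x y n).Adj b e) :
    False := by
  -- a triangle through the new vertex
  have hnew : ∀ c e, (ext G x y n).Adj n c → (ext G x y n).Adj n e → (ext G x y n).Adj c e →
      False := by
    intro c e h1 h2 h3
    rw [ext_adj_new h hx hy hf] at h1 h2
    have hc : c < n := by rcases h1 with h1 | h1 <;> exact h.supp' h1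
    have he : e < n := by rcases h2 with h2 | h2 <;> exact h.supp' h2
    rw [ext_adj_old h hx hy hf hc he] at h3
    rcases h3 with h3 | ⟨rfl, rfl⟩ | ⟨rfl, rfl⟩
    · rcases h1 with h1 | h1 <;> rcases h2 with h2 | h2
      · exact h.tri _ _ _ h1 h3 h2
      · exact (hf.nn _ _ h1 h2).2 h3
      · exact (hf.nn _ _ h2 h1).2 h3.symm
      · exact h.tri _ _ _ h1 h3 h2
    · rcases h1 with h1 | h1
      · exact h1.ne rfl
      · exact hf.nadj h1.symm
    · rcases h1 with h1 | h1
      · exact hf.nadj h1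
      · exact h1.ne rfl
  -- a triangle through the new edge
  have hedge : ∀ z, z < n → (ext G x y n).Adj z x → (ext G x y n).Adj z y → False := by
    intro z hz h1 h2
    rw [ext_adj_old h hx hy hf hz hx] at h1
    rw [ext_adj_old h hx hy hf hz hy] at h2
    rcases h1 with h1 | ⟨rfl, h1⟩ | ⟨rfl, -⟩
    · rcases h2 with h2 | ⟨rfl, -⟩ | ⟨rfl, h2⟩
      · exact (hf.nn _ _ h1.symm h2.symm).1 rfl
      · exact h1.ne rfl
      · exact hf.ne h2.symm
    · exact hf.ne h1
    · rcases h2 with h2 | ⟨h2, -⟩ | ⟨-, h2⟩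
      · exact h2.ne rfl
      · exact hf.ne h2.symm
      · exact hf.ne h2.symm
  by_cases hb : b = n
  · subst hb; exact hnew c e h1 h3 h2
  by_cases hc : c = n
  · subst hc; exact hnew b e h1.symm h2 h3
  by_cases he : e = n
  · subst he; exact hnew b c h3.symm h2.symm h1
  have hlt : ∀ u v, (ext G x y n).Adj u v → u ≠ n → u < n := by
    intro u v huv hu
    rw [ext_adj h hx hy hf] at huv
    rcases huv with h4 | h4 | h4 | h4 | h4
    · exact h.supp _ _ h4
    · omega
    · omega
    · exact absurd h4.1 hu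
    · rcases h4.2 with h5 | h5 <;> exact h.supp' h5
  have hb' := hlt _ _ h1 hb
  have hc' := hlt _ _ h2 hc
  have he' := hlt _ _ h3.symm he
  have h1' := h1
  have h2' := h2
  have h3' := h3
  rw [ext_adj_old h hx hy hf hb' hc'] at h1'
  rw [ext_adj_old h hx hy hf hc' he'] at h2'
  rw [ext_adj_old h hx hy hf hb' he'] at h3'
  rcases h1' with h1' | ⟨rfl, rfl⟩ | ⟨rfl, rfl⟩
  · rcases h2' with h2' | ⟨rfl, rfl⟩ | ⟨rfl, rfl⟩
    · rcases h3' with h3' | ⟨rfl, rfl⟩ | ⟨rfl, rfl⟩
      · exact h.tri _ _ _ h1' h2' h3'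
      · exact hedge c hc' h1.symm h2
      · exact hedge c hc' h2 h1.symm
    · exact hedge b hb' h1 h3
    · exact hedge b hb' h3 h1
  · exact hedge e he' h3.symm h2.symm
  · exact hedge e he' h2.symm h3.symm

theorem ext_ind (h : Base a n G) (hx : x < n) (hy : y < n) (hf : Far G x y) (S : Finset ℕ)
    (hS : ∀ u ∈ S, u < n + 1) (hI : ∀ u ∈ S, ∀ v ∈ S, ¬ (ext G x y n).Adj u v) : S.card ≤ a := by
  by_cases hn : n ∈ S
  · -- replace `n` by both `x` and `y`
    have hlt : ∀ u ∈ S.erase n, u < n := by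
      intro u hu
      rw [mem_erase] at hu
      have := hS u hu.2
      omega
    have hnx : ∀ u ∈ S, ¬ G.Adj x u := by
      intro u hu hxu
      exact hI n hn u hu ((ext_adj_new h hx hy hf u).2 (Or.inl hxu))
    have hny : ∀ u ∈ S, ¬ G.Adj y u := by
      intro u hu hxu
      exact hI n hn u hu ((ext_adj_new h hx hy hf u).2 (Or.inr hxu))
    have hT := h.ind (insert x (insert y (S.erase n))) (by
      intro u hu
      rw [mem_insert, mem_insert] at hu
      rcases hu with rfl | rfl | hu
      · exact hx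
      · exact hy
      · exact hlt u hu) (by
      intro u hu v hv huv
      rw [mem_insert, mem_insert] at hu hv
      rcases hu with rfl | rfl | hu
      · rcases hv with rfl | rfl | hv
        · exact huv.ne rfl
        · exact hf.nadj huv
        · exact hnx v (mem_of_mem_erase hv) huv
      · rcases hv with rfl | rfl | hv
        · exact hf.nadj huv.symm
        · exact huv.ne rfl
        · exact hny v (mem_of_mem_erase hv) huv
      · rcases hv with rfl | rfl | hv
        · exact hnx u (mem_of_mem_erase hu) huv.symm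
        · exact hny u (mem_of_mem_erase hu) huv.symm
        · exact hI u (mem_of_mem_erase hu) v (mem_of_mem_erase hv)
            ((ext_adj_old h hx hy hf (hlt u hu) (hlt v hv)).2 (Or.inl huv)))
    have hnot : x ∉ S ∨ y ∉ S := by
      by_contra hcon
      push Not at hcon
      exact hI x hcon.1 y hcon.2 ((ext_adj_old h hx hy hf hx hy).2 (Or.inr (Or.inl ⟨rfl, rfl⟩)))
    have hcard : S.card ≤ (insert x (insert y (S.erase n))).card := by
      have h1 : (S.erase n).card + 1 = S.card := card_erase_add_one hn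
      rcases hnot with h2 | h2
      · have h3 : x ∉ insert y (S.erase n) := by
          rw [mem_insert, not_or]
          exact ⟨hf.ne, fun h4 => h2 (mem_of_mem_erase h4)⟩
        rw [card_insert_of_notMem h3]
        have := card_le_card (subset_insert y (S.erase n))
        omega
      · have h3 : y ∉ S.erase n := fun h4 => h2 (mem_of_mem_erase h4)
        have h4 : (insert y (S.erase n)).card = (S.erase n).card + 1 := card_insert_of_notMem h3
        have := card_le_card (subset_insert x (insert y (S.erase n)))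
        omega
    omega
  · refine h.ind S ?_ ?_
    · intro u hu
      have := hS u hu
      have : u ≠ n := fun h => hn (h ▸ hu)
      omega
    · intro u hu v hv huv
      have hu' : u < n := h.supp _ _ huv
      have hv' : v < n := h.supp' huv
      exact hI u hu v hv ((ext_adj_old h hx hy hf hu' hv').2 (Or.inl huv))

theorem ext_base (h : Base a n G) (hx : x < n) (hy : y < n) (hf : Far G x y) :
    Base a (n + 1) (ext G x y n) where
  supp := by
    intro b c hbc
    rw [ext_adj h hx hy hf] at hbc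
    rcases hbc with h4 | h4 | h4 | h4 | h4
    · have := h.supp _ _ h4; omega
    · omega
    · omega
    · omega
    · rcases h4.2 with h5 | h5
      · have := h.supp' h5; omega
      · have := h.supp' h5; omega
  tri := ext_tri h hx hy hf
  ind := ext_ind h hx hy hf

/-- A family of independent sets with exactly `a` elements. -/
def Fam (a n : ℕ) (G : SimpleGraph ℕ) (F : Finset (Finset ℕ)) : Prop :=
  ∀ T ∈ F, (∀ u ∈ T, u < n) ∧ (∀ u ∈ T, ∀ v ∈ T, ¬ G.Adj u v) ∧ T.card = a

/-- The new family. -/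
def upd (F : Finset (Finset ℕ)) (x y w : ℕ) : Finset (Finset ℕ) :=
  F.filter (fun T => ¬ (x ∈ T ∧ y ∈ T)) ∪
    ((F.filter (fun T => x ∈ T ∧ y ∈ T)).image (fun T => insert w (T.erase x)) ∪
     (F.filter (fun T => x ∈ T ∧ y ∈ T)).image (fun T => insert w (T.erase y)))

theorem mem_upd (F : Finset (Finset ℕ)) (x y w : ℕ) (T : Finset ℕ) :
    T ∈ upd F x y w ↔ (T ∈ F ∧ ¬ (x ∈ T ∧ y ∈ T)) ∨
      ∃ T₀ ∈ F, (x ∈ T₀ ∧ y ∈ T₀) ∧ (T = insert w (T₀.erase x) ∨ T = insert w (T₀.erase y)) := by
  unfold upd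
  rw [mem_union, mem_union, mem_filter, mem_image, mem_image]
  constructor
  · rintro (h | ⟨T₀, h1, h2⟩ | ⟨T₀, h1, h2⟩)
    · exact Or.inl h
    · rw [mem_filter] at h1
      exact Or.inr ⟨T₀, h1.1, h1.2, Or.inl h2.symm⟩
    · rw [mem_filter] at h1
      exact Or.inr ⟨T₀, h1.1, h1.2, Or.inr h2.symm⟩
  · rintro (h | ⟨T₀, h1, h2, h3 | h3⟩)
    · exact Or.inl h
    · exact Or.inr (Or.inl ⟨T₀, by rw [mem_filter]; exact ⟨h1, h2⟩, h3.symm⟩)
    · exact Or.inr (Or.inr ⟨T₀, by rw [mem_filter]; exact ⟨h1, h2⟩, h3.symm⟩)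

theorem upd_fam (h : Base a n G) (hx : x < n) (hy : y < n) (hf : Far G x y)
    {F : Finset (Finset ℕ)} (hF : Fam a n G F) : Fam a (n + 1) (ext G x y n) (upd F x y n) := by
  -- the replacement of one vertex
  have key : ∀ T₀ ∈ F, x ∈ T₀ → y ∈ T₀ → ∀ z, (z = x ∨ z = y) →
      (∀ u ∈ insert n (T₀.erase z), u < n + 1) ∧
      (∀ u ∈ insert n (T₀.erase z), ∀ v ∈ insert n (T₀.erase z), ¬ (ext G x y n).Adj u v) ∧
      (insert n (T₀.erase z)).card = a := by
    intro T₀ hT₀ hxT hyT z hz
    obtain ⟨h1, h2, h3⟩ := hF T₀ hT₀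
    have hzT : z ∈ T₀ := by rcases hz with rfl | rfl <;> assumption
    have hnT : n ∉ T₀.erase z := by
      intro hn
      have := h1 n (mem_of_mem_erase hn)
      omega
    have hnew : ∀ u ∈ T₀.erase z, ¬ (ext G x y n).Adj n u := by
      intro u hu hadj
      rw [ext_adj_new h hx hy hf] at hadj
      rcases hadj with h4 | h4
      · exact h2 x hxT u (mem_of_mem_erase hu) h4
      · exact h2 y hyT u (mem_of_mem_erase hu) h4
    refine ⟨?_, ?_, ?_⟩
    · intro u hu
      rw [mem_insert] at hu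
      rcases hu with rfl | hu
      · omega
      · have := h1 u (mem_of_mem_erase hu)
        omega
    · intro u hu v hv huv
      rw [mem_insert] at hu hv
      rcases hu with rfl | hu
      · rcases hv with rfl | hv
        · exact huv.ne rfl
        · exact hnew v hv huv
      · rcases hv with rfl | hv
        · exact hnew u hu huv.symm
        · have hu1 := mem_of_mem_erase hu
          have hv1 := mem_of_mem_erase hv
          rw [ext_adj_old h hx hy hf (h1 u hu1) (h1 v hv1)] at huv
          rcases huv with h4 | ⟨rfl, rfl⟩ | ⟨rfl, rfl⟩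
          · exact h2 u hu1 v hv1 h4
          · rcases hz with rfl | rfl
            · exact absurd hu (notMem_erase _ _)
            · exact absurd hv (notMem_erase _ _)
          · rcases hz with rfl | rfl
            · exact absurd hv (notMem_erase _ _)
            · exact absurd hu (notMem_erase _ _)
    · rw [card_insert_of_notMem hnT, card_erase_add_one hzT, h3]
  intro T hT
  rw [mem_upd] at hT
  rcases hT with ⟨hT, hnot⟩ | ⟨T₀, hT₀, ⟨hxT, hyT⟩, rfl | rfl⟩
  · obtain ⟨h1, h2, h3⟩ := hF T hT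
    refine ⟨fun u hu => by have := h1 u hu; omega, ?_, h3⟩
    intro u hu v hv huv
    rw [ext_adj_old h hx hy hf (h1 u hu) (h1 v hv)] at huv
    rcases huv with h4 | ⟨rfl, rfl⟩ | ⟨rfl, rfl⟩
    · exact h2 u hu v hv h4
    · exact hnot ⟨hu, hv⟩
    · exact hnot ⟨hv, hu⟩
  · exact key T₀ hT₀ hxT hyT x (Or.inl rfl)
  · exact key T₀ hT₀ hxT hyT y (Or.inr rfl)

/-- Sums over the new family. -/
theorem upd_sum {F : Finset (Finset ℕ)} (hF : ∀ T ∈ F, n ∉ T) (hxy : x ≠ y) (hxn : x ≠ n)
    (hyn : y ≠ n) (f : Finset ℕ → ℕ) :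
    ∑ T ∈ upd F x y n, f T = ∑ T ∈ F.filter (fun T => ¬ (x ∈ T ∧ y ∈ T)), f T +
      ∑ T ∈ F.filter (fun T => x ∈ T ∧ y ∈ T),
        (f (insert n (T.erase x)) + f (insert n (T.erase y))) := by
  unfold upd
  rw [sum_union, sum_union, sum_image, sum_image, sum_add_distrib]
  · intro T hT T' hT' heq
    simp only [coe_filter, Set.mem_setOf_eq] at hT hT'
    have h1 : n ∉ T.erase y := fun h => hF T hT.1 (mem_of_mem_erase h)
    have h2 : n ∉ T'.erase y := fun h => hF T' hT'.1 (mem_of_mem_erase h)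
    have h3 : T.erase y = T'.erase y := by
      rw [← erase_insert h1, ← erase_insert h2]
      exact congrArg (fun S => S.erase n) heq
    rw [← insert_erase hT.2.2, ← insert_erase hT'.2.2, h3]
  · intro T hT T' hT' heq
    simp only [coe_filter, Set.mem_setOf_eq] at hT hT'
    have h1 : n ∉ T.erase x := fun h => hF T hT.1 (mem_of_mem_erase h)
    have h2 : n ∉ T'.erase x := fun h => hF T' hT'.1 (mem_of_mem_erase h)
    have h3 : T.erase x = T'.erase x := by
      rw [← erase_insert h1, ← erase_insert h2]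
      exact congrArg (fun S => S.erase n) heq
    rw [← insert_erase hT.2.1, ← insert_erase hT'.2.1, h3]
  · rw [disjoint_left]
    intro T hT hT'
    rw [mem_image] at hT hT'
    obtain ⟨T₁, h1, rfl⟩ := hT
    obtain ⟨T₂, h2, h3⟩ := hT'
    rw [mem_filter] at h1 h2
    have h4 : x ∈ insert n (T₂.erase y) := by
      rw [mem_insert, mem_erase]
      exact Or.inr ⟨hxy, h2.2.1⟩
    rw [h3, mem_insert] at h4
    rcases h4 with h4 | h4
    · exact hxn h4
    · exact absurd h4 (notMem_erase _ _)
  · rw [disjoint_left]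
    intro T hT hT'
    rw [mem_filter] at hT
    rw [mem_union, mem_image, mem_image] at hT'
    rcases hT' with ⟨T₂, -, rfl⟩ | ⟨T₂, -, rfl⟩
    · exact hF _ hT.1 (mem_insert_self _ _)
    · exact hF _ hT.1 (mem_insert_self _ _)

end Pool.Agent.W156.MIS
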