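import Pool.Agent.W156.MISa

set_option autoImplicit false

/-!
# One stage of the construction: keeping track of degrees and of the family
-/

namespace Pool.Agent.W156.MIS

open Finset

/-- The neighbours of `v` in the set `A`. -/
noncomputable def nb (G : SimpleGraph ℕ) (A : Finset ℕ) (v : ℕ) : Finset ℕ :=
  @Finset.filter ℕ (fun z => G.Adj v z) (Classical.decPred _) A

theorem mem_nb {G : SimpleGraph ℕ} {A : Finset ℕ} {v z : ℕ} :
    z ∈ nb G A v ↔ z ∈ A ∧ G.Adj v z :=
  @mem_filter _ _ (Classical.decPred _) _ _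

/-- The state inside a stage that started with `n₀` vertices, degrees at most `Δ` and pool `P`.
`u z` counts how often `z` has been used. -/
structure Stg (a n₀ Δ R m W : ℕ) (P : Finset ℕ) (n : ℕ) (G : SimpleGraph ℕ)
    (F : Finset (Finset ℕ)) (u : ℕ → ℕ) : Prop where
  base : Base a n G
  fam : Fam a n G F
  le : n₀ ≤ n
  uR : ∀ z, u z ≤ R
  usum : ∑ z ∈ P, u z = 2 * (n - n₀)
  w : ∑ T ∈ F, 2 ^ (T ∩ P).card = W
  ov : ∀ T ∈ F, m ≤ (T ∩ P).card + (T ∩ Ico n₀ n).card
  old1 : ∀ v < n₀, (nb G (range n₀) v).card ≤ Δ + u v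
  old2 : ∀ v < n, (nb G (range n₀) v).card ≤ 2 * (Δ + R)
  new1 : ∀ v < n₀, (nb G (Ico n₀ n) v).card ≤ ∑ z ∈ nb G (range n₀) v, u z
  new2 : ∀ v < n, (nb G (Ico n₀ n) v).card ≤
    2 * ((Δ + R) * R) + ∑ z ∈ nb G (range n₀) v, u z

/-- usage after one more step -/
def use (u : ℕ → ℕ) (x y z : ℕ) : ℕ := u z + if z = x ∨ z = y then 1 else 0

variable {a n₀ Δ R m W n : ℕ} {P : Finset ℕ} {G : SimpleGraph ℕ} {F : Finset (Finset ℕ)}
  {u : ℕ → ℕ} {x y : ℕ}

theorem Stg.deg (S : Stg a n₀ Δ R m W P n G F u) (v : ℕ) (hv : v < n) :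
    (nb G (range n) v).card ≤ 2 * (Δ + R) + 4 * ((Δ + R) * R) := by
  have h1 : nb G (range n) v ⊆ nb G (range n₀) v ∪ nb G (Ico n₀ n) v := by
    intro z hz
    rw [mem_union, mem_nb, mem_nb]
    rw [mem_nb, mem_range] at hz
    rcases lt_or_ge z n₀ with h | h
    · exact Or.inl ⟨mem_range.2 h, hz.2⟩
    · exact Or.inr ⟨mem_Ico.2 ⟨h, hz.1⟩, hz.2⟩
  have h2 := (card_le_card h1).trans (card_union_le _ _)
  have h3 := S.old2 v hv
  have h4 := S.new2 v hv
  have h5 : ∑ z ∈ nb G (range n₀) v, u z ≤ (nb G (range n₀) v).card • R :=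
    sum_le_card_nsmul _ _ _ (fun z _ => S.uR z)
  have h6 : (nb G (range n₀) v).card • R ≤ (2 * (Δ + R)) * R := by
    rw [smul_eq_mul]
    exact Nat.mul_le_mul_right _ h3
  have h7 : (2 * (Δ + R)) * R = 2 * ((Δ + R) * R) := by ring
  omega

theorem card_swap {T : Finset ℕ} {z w : ℕ} (hw : w ∉ P) (hzP : z ∈ P) (hzT : z ∈ T) :
    (insert w (T.erase z) ∩ P).card + 1 = (T ∩ P).card := by
  have h1 : insert w (T.erase z) ∩ P = (T ∩ P).erase z := by
    ext v
    simp only [mem_inter, mem_insert, mem_erase]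
    constructor
    · rintro ⟨rfl | h2, h3⟩
      · exact absurd h3 hw
      · exact ⟨h2.1, h2.2, h3⟩
    · rintro ⟨h2, h3, h4⟩
      exact ⟨Or.inr ⟨h2, h3⟩, h4⟩
  rw [h1]
  exact card_erase_add_one (mem_inter.2 ⟨hzT, hzP⟩)

theorem card_swap_new {T : Finset ℕ} {z : ℕ} (hnT : n ∉ T) (hle : n₀ ≤ n) (hz : z < n₀) :
    (T ∩ Ico n₀ n).card + 1 ≤ (insert n (T.erase z) ∩ Ico n₀ (n + 1)).card := by
  have h1 : insert n (T ∩ Ico n₀ n) ⊆ insert n (T.erase z) ∩ Ico n₀ (n + 1) := by
    intro v hv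
    rw [mem_insert, mem_inter, mem_Ico] at hv
    rw [mem_inter, mem_insert, mem_erase, mem_Ico]
    rcases hv with rfl | ⟨h2, h3, h4⟩
    · exact ⟨Or.inl rfl, hle, by omega⟩
    · exact ⟨Or.inr ⟨by omega, h2⟩, h3, by omega⟩
  have h2 : n ∉ T ∩ Ico n₀ n := fun h => hnT (mem_inter.1 h).1
  rw [← card_insert_of_notMem h2]
  exact card_le_card h1

/-- The weighted sum does not change. -/
theorem upd_weight (hF : ∀ T ∈ F, n ∉ T) (hxy : x ≠ y) (hxP : x ∈ P) (hyP : y ∈ P)
    (hnP : n ∉ P) : ∑ T ∈ upd F x y n, 2 ^ (T ∩ P).card = ∑ T ∈ F, 2 ^ (T ∩ P).card := by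
  have hxn : x ≠ n := fun h => hnP (h ▸ hxP)
  have hyn : y ≠ n := fun h => hnP (h ▸ hyP)
  rw [upd_sum hF hxy hxn hyn]
  rw [← sum_filter_not_add_sum_filter F (fun T => x ∈ T ∧ y ∈ T)]
  congr 1
  apply sum_congr rfl
  intro T hT
  rw [mem_filter] at hT
  have h1 := card_swap (w := n) hnP hxP hT.2.1
  have h2 := card_swap (w := n) hnP hyP hT.2.2
  rw [← h1]
  have h3 : (insert n (T.erase y) ∩ P).card = (insert n (T.erase x) ∩ P).card := by omega
  rw [h3, pow_succ]
  ring

/-- The potential drops. -/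
theorem upd_pot (hF : ∀ T ∈ F, n ∉ T) (hxy : x ≠ y) (hxP : x ∈ P) (hyP : y ∈ P)
    (hnP : n ∉ P) :
    ∑ T ∈ upd F x y n, 2 ^ (T ∩ P).card * (T ∩ P).card +
      ∑ T ∈ F.filter (fun T => x ∈ T ∧ y ∈ T), 2 ^ (T ∩ P).card
      = ∑ T ∈ F, 2 ^ (T ∩ P).card * (T ∩ P).card := by
  have hxn : x ≠ n := fun h => hnP (h ▸ hxP)
  have hyn : y ≠ n := fun h => hnP (h ▸ hyP)
  rw [upd_sum hF hxy hxn hyn]
  rw [← sum_filter_not_add_sum_filter F (fun T => x ∈ T ∧ y ∈ T)
    (f := fun T => 2 ^ (T ∩ P).card * (T ∩ P).card)]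
  rw [add_assoc]
  congr 1
  rw [← sum_add_distrib]
  apply sum_congr rfl
  intro T hT
  rw [mem_filter] at hT
  have h1 := card_swap (w := n) hnP hxP hT.2.1
  have h2 := card_swap (w := n) hnP hyP hT.2.2
  rw [← h1]
  have h3 : (insert n (T.erase y) ∩ P).card = (insert n (T.erase x) ∩ P).card := by omega
  rw [h3, pow_succ]
  ring

theorem sum_use (s : Finset ℕ) (hxy : x ≠ y) :
    ∑ z ∈ s, use u x y z = ∑ z ∈ s, u z + (if x ∈ s then 1 else 0) + (if y ∈ s then 1 else 0) := by
  unfold use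
  have h1 : ∀ z, (if z = x ∨ z = y then 1 else 0) = (if z = x then 1 else 0) +
      (if z = y then 1 else 0) := by
    intro z
    by_cases h2 : z = x
    · subst h2
      rw [if_pos (Or.inl rfl), if_pos rfl, if_neg hxy]
    · by_cases h3 : z = y
      · subst h3
        rw [if_pos (Or.inr rfl), if_neg h2, if_pos rfl]
      · rw [if_neg (by tauto), if_neg h2, if_neg h3]
  simp only [h1]
  rw [sum_add_distrib, sum_add_distrib, sum_ite_eq', sum_ite_eq', add_assoc]

/-- One step keeps the invariants. -/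
theorem Stg.step (S : Stg a n₀ Δ R m W P n G F u) (hP : P ⊆ range n₀) (hxP : x ∈ P)
    (hyP : y ∈ P) (hux : u x < R) (huy : u y < R) (hf : Far G x y) :
    Stg a n₀ Δ R m W P (n + 1) (ext G x y n) (upd F x y n) (use u x y) := by
  have hxn₀ : x < n₀ := mem_range.1 (hP hxP)
  have hyn₀ : y < n₀ := mem_range.1 (hP hyP)
  have hle := S.le
  have hx : x < n := lt_of_lt_of_le hxn₀ hle
  have hy : y < n := lt_of_lt_of_le hyn₀ hle
  have hnP : n ∉ P := fun h => by have := mem_range.1 (hP h); omega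
  have hF : ∀ T ∈ F, n ∉ T := fun T hT h => lt_irrefl _ ((S.fam T hT).1 n h)
  have hb := S.base
  have hum : ∀ z, u z ≤ use u x y z := fun z => Nat.le_add_right _ _
  -- old neighbours only grow
  have holdmono : ∀ v, nb G (range n₀) v ⊆ nb (ext G x y n) (range n₀) v := by
    intro v z hz
    rw [mem_nb] at hz ⊢
    exact ⟨hz.1, (ext_adj hb hx hy hf v z).2 (Or.inl hz.2)⟩
  have hold : ∀ v < n, v ≠ x → v ≠ y → nb (ext G x y n) (range n₀) v = nb G (range n₀) v := by
    intro v hv hvx hvy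
    apply Subset.antisymm _ (holdmono v)
    intro z hz
    rw [mem_nb, mem_range] at hz
    rw [mem_nb, mem_range]
    have hz2 := hz.2
    rw [ext_adj_old hb hx hy hf hv (lt_of_lt_of_le hz.1 hle)] at hz2
    rcases hz2 with h1 | h1 | h1
    · exact ⟨hz.1, h1⟩
    · exact absurd h1.1 hvx
    · exact absurd h1.1 hvy
  have holdx : nb (ext G x y n) (range n₀) x ⊆ insert y (nb G (range n₀) x) := by
    intro z hz
    rw [mem_nb, mem_range] at hz
    rw [mem_insert, mem_nb, mem_range]
    have hz2 := hz.2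
    rw [ext_adj_old hb hx hy hf hx (lt_of_lt_of_le hz.1 hle)] at hz2
    rcases hz2 with h1 | h1 | h1
    · exact Or.inr ⟨hz.1, h1⟩
    · exact Or.inl h1.2
    · exact absurd h1.1 hf.ne
  have holdy : nb (ext G x y n) (range n₀) y ⊆ insert x (nb G (range n₀) y) := by
    intro z hz
    rw [mem_nb, mem_range] at hz
    rw [mem_insert, mem_nb, mem_range]
    have hz2 := hz.2
    rw [ext_adj_old hb hx hy hf hy (lt_of_lt_of_le hz.1 hle)] at hz2
    rcases hz2 with h1 | h1 | h1
    · exact Or.inr ⟨hz.1, h1⟩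
    · exact absurd h1.1.symm hf.ne
    · exact Or.inl h1.2
  have hold1' : ∀ v < n₀, (nb (ext G x y n) (range n₀) v).card ≤ Δ + use u x y v := by
    intro v hv
    have h1 := S.old1 v hv
    by_cases hvx : v = x
    · subst hvx
      have h2 := (card_le_card holdx).trans (card_insert_le _ _)
      have h3 : use u v y v = u v + 1 := by unfold use; rw [if_pos (Or.inl rfl)]
      omega
    · by_cases hvy : v = y
      · subst hvy
        have h2 := (card_le_card holdy).trans (card_insert_le _ _)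
        have h3 : use u x v v = u v + 1 := by unfold use; rw [if_pos (Or.inr rfl)]
        omega
      · rw [hold v (lt_of_lt_of_le hv hle) hvx hvy]
        have := hum v
        omega
  have holdn : nb (ext G x y n) (range n₀) n ⊆ nb G (range n₀) x ∪ nb G (range n₀) y := by
    intro z hz
    rw [mem_nb, mem_range, ext_adj_new hb hx hy hf] at hz
    rw [mem_union, mem_nb, mem_nb, mem_range]
    rcases hz.2 with h1 | h1
    · exact Or.inl ⟨hz.1, h1⟩
    · exact Or.inr ⟨hz.1, h1⟩
  -- new neighbours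
  have hnew : ∀ v < n, nb (ext G x y n) (Ico n₀ (n + 1)) v ⊆
      if (x ∈ nb G (range n₀) v ∨ y ∈ nb G (range n₀) v) then insert n (nb G (Ico n₀ n) v)
      else nb G (Ico n₀ n) v := by
    intro v hv z hz
    rw [mem_nb, mem_Ico] at hz
    by_cases hzn : z = n
    · subst hzn
      have hz2 := hz.2.symm
      rw [ext_adj_new hb hx hy hf] at hz2
      have h1 : x ∈ nb G (range n₀) v ∨ y ∈ nb G (range n₀) v := by
        rw [mem_nb, mem_nb, mem_range, mem_range]
        rcases hz2 with h2 | h2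
        · exact Or.inl ⟨hxn₀, h2.symm⟩
        · exact Or.inr ⟨hyn₀, h2.symm⟩
      rw [if_pos h1]
      exact mem_insert_self _ _
    · have hzlt : z < n := by omega
      have hz2 := hz.2
      rw [ext_adj_old hb hx hy hf hv hzlt] at hz2
      have h1 : G.Adj v z := by
        rcases hz2 with h2 | h2 | h2
        · exact h2
        · omega
        · omega
      have h2 : z ∈ nb G (Ico n₀ n) v := by
        rw [mem_nb, mem_Ico]
        exact ⟨⟨hz.1.1, hzlt⟩, h1⟩
      split_ifs
      · exact mem_insert_of_mem h2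
      · exact h2
  have hnewsum : ∀ v < n, ∀ B, (nb G (Ico n₀ n) v).card ≤ B + ∑ z ∈ nb G (range n₀) v, u z →
      (nb (ext G x y n) (Ico n₀ (n + 1)) v).card ≤
        B + ∑ z ∈ nb (ext G x y n) (range n₀) v, use u x y z := by
    intro v hv B hB
    have h1 : ∑ z ∈ nb G (range n₀) v, use u x y z ≤
        ∑ z ∈ nb (ext G x y n) (range n₀) v, use u x y z :=
      sum_le_sum_of_subset (holdmono v)
    rw [sum_use _ hf.ne] at h1
    have h2 := card_le_card (hnew v hv)
    by_cases h3 : x ∈ nb G (range n₀) v ∨ y ∈ nb G (range n₀) v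
    · rw [if_pos h3] at h2
      have h4 := h2.trans (card_insert_le _ _)
      rcases h3 with h3 | h3
      · rw [if_pos h3] at h1
        omega
      · rw [if_pos h3] at h1
        omega
    · rw [if_neg h3] at h2
      omega
  have hnewn : nb (ext G x y n) (Ico n₀ (n + 1)) n ⊆ nb G (Ico n₀ n) x ∪ nb G (Ico n₀ n) y := by
    intro z hz
    rw [mem_nb, mem_Ico, ext_adj_new hb hx hy hf] at hz
    rw [mem_union, mem_nb, mem_nb, mem_Ico]
    rcases hz.2 with h1 | h1
    · exact Or.inl ⟨⟨hz.1.1, hb.supp' h1⟩, h1⟩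
    · exact Or.inr ⟨⟨hz.1.1, hb.supp' h1⟩, h1⟩
  have hsmall : ∀ v < n₀, (nb G (Ico n₀ n) v).card ≤ (Δ + R) * R := by
    intro v hv
    have h1 := S.new1 v hv
    have h2 : ∑ z ∈ nb G (range n₀) v, u z ≤ (nb G (range n₀) v).card • R :=
      sum_le_card_nsmul _ _ _ (fun z _ => S.uR z)
    have h3 := S.old1 v hv
    have h4 := S.uR v
    have h5 : (nb G (range n₀) v).card • R ≤ (Δ + R) * R := by
      rw [smul_eq_mul]
      exact Nat.mul_le_mul_right _ (by omega)
    omega
  refine ⟨ext_base hb hx hy hf, upd_fam hb hx hy hf S.fam, by omega, ?_, ?_, ?_, ?_, hold1', ?_,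
    ?_, ?_⟩
  · intro z
    unfold use
    have := S.uR z
    split_ifs with h
    · rcases h with rfl | rfl <;> omega
    · omega
  · rw [sum_use _ hf.ne, if_pos hxP, if_pos hyP, S.usum]
    omega
  · rw [upd_weight hF hf.ne hxP hyP hnP]
    exact S.w
  · intro T hT
    rw [mem_upd] at hT
    rcases hT with ⟨hT, -⟩ | ⟨T₀, hT₀, ⟨hxT, hyT⟩, rfl | rfl⟩
    · have h1 := S.ov T hT
      have h2 : (T ∩ Ico n₀ n).card ≤ (T ∩ Ico n₀ (n + 1)).card := by
        apply card_le_card
        apply inter_subset_inter_left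
        exact Ico_subset_Ico_right (Nat.le_succ n)
      omega
    · have h1 := S.ov T₀ hT₀
      have h2 := card_swap (w := n) hnP hxP hxT
      have h3 := card_swap_new (hF T₀ hT₀) hle hxn₀
      omega
    · have h1 := S.ov T₀ hT₀
      have h2 := card_swap (w := n) hnP hyP hyT
      have h3 := card_swap_new (hF T₀ hT₀) hle hyn₀
      omega
  · -- old2
    intro v hv
    rcases lt_or_ge v n with hv' | hv'
    · rcases lt_or_ge v n₀ with hv'' | hv''
      · have h1 := hold1' v hv''
        have h2 : use u x y v ≤ R := by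
          unfold use
          have := S.uR v
          split_ifs with h
          · rcases h with rfl | rfl <;> omega
          · omega
        omega
      · rw [hold v hv' (by omega) (by omega)]
        exact S.old2 v hv'
    · have hvn : v = n := by omega
      subst hvn
      have h1 := (card_le_card holdn).trans (card_union_le _ _)
      have h2 := S.old1 x hxn₀
      have h3 := S.old1 y hyn₀
      omega
  · -- new1
    intro v hv
    have h1 := hnewsum v (lt_of_lt_of_le hv hle) 0 (by have := S.new1 v hv; omega)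
    omega
  · -- new2
    intro v hv
    rcases lt_or_ge v n with hv' | hv'
    · exact hnewsum v hv' _ (S.new2 v hv')
    · have hvn : v = n := by omega
      subst hvn
      have h1 := (card_le_card hnewn).trans (card_union_le _ _)
      have h2 := hsmall x hxn₀
      have h3 := hsmall y hyn₀
      omega

end Pool.Agent.W156.MIS
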