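import Pool.Agent.W156.MISb

set_option autoImplicit false

/-!
# One stage of the construction: choosing the pair, and the outcome of a stage
-/

namespace Pool.Agent.W156.MIS

open Finset

variable {a n₀ Δ R m W n : ℕ} {P : Finset ℕ} {G : SimpleGraph ℕ} {F : Finset (Finset ℕ)}
  {u : ℕ → ℕ} {x y : ℕ}

/-- a set together with its neighbours -/
noncomputable def grow (G : SimpleGraph ℕ) (n : ℕ) (S : Finset ℕ) : Finset ℕ :=
  S ∪ S.biUnion (nb G (range n))

theorem grow_card {D : ℕ} (h : Base a n G) (hD : ∀ v < n, (nb G (range n) v).card ≤ D)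
    (S : Finset ℕ) : (grow G n S).card ≤ S.card * (D + 1) := by
  have hD' : ∀ v, (nb G (range n) v).card ≤ D := by
    intro v
    rcases lt_or_ge v n with hv | hv
    · exact hD v hv
    · have h1 : nb G (range n) v = ∅ := by
        rw [eq_empty_iff_forall_notMem]
        intro z hz
        rw [mem_nb] at hz
        have := h.supp _ _ hz.2
        omega
      rw [h1, card_empty]
      exact Nat.zero_le _
  unfold grow
  have h1 := card_union_le S (S.biUnion (nb G (range n)))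
  have h2 : (S.biUnion (nb G (range n))).card ≤ S.card * D :=
    card_biUnion_le_card_mul _ _ _ (fun v _ => hD' v)
  have h3 : S.card * (D + 1) = S.card * D + S.card := by ring
  omega

theorem mem_grow_self {S : Finset ℕ} {z : ℕ} (hz : z ∈ S) : z ∈ grow G n S := mem_union_left _ hz

theorem mem_grow_adj (h : Base a n G) {S : Finset ℕ} {z w : ℕ} (hz : z ∈ S) (hzw : G.Adj z w) :
    w ∈ grow G n S := by
  apply mem_union_right
  rw [mem_biUnion]
  exact ⟨z, hz, mem_nb.2 ⟨mem_range.2 (h.supp' hzw), hzw⟩⟩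

/-- the ball of radius `3` -/
noncomputable def ball (G : SimpleGraph ℕ) (n x : ℕ) : Finset ℕ := grow G n (grow G n (grow G n {x}))

theorem ball_card {D : ℕ} (h : Base a n G) (hD : ∀ v < n, (nb G (range n) v).card ≤ D) (x : ℕ) :
    (ball G n x).card ≤ (D + 1) ^ 3 := by
  unfold ball
  have h1 := grow_card h hD {x}
  have h2 := grow_card h hD (grow G n {x})
  have h3 := grow_card h hD (grow G n (grow G n {x}))
  rw [card_singleton] at h1
  calc (grow G n (grow G n (grow G n {x}))).card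
      ≤ (grow G n (grow G n {x})).card * (D + 1) := h3
    _ ≤ ((grow G n {x}).card * (D + 1)) * (D + 1) := Nat.mul_le_mul_right _ h2
    _ ≤ ((1 * (D + 1)) * (D + 1)) * (D + 1) :=
        Nat.mul_le_mul_right _ (Nat.mul_le_mul_right _ h1)
    _ = (D + 1) ^ 3 := by ring

theorem far_of_notMem_ball (h : Base a n G) (hy : y ∉ ball G n x) : Far G x y := by
  have h1 : x ∈ grow G n {x} := mem_grow_self (mem_singleton_self x)
  have h2 : x ∈ grow G n (grow G n {x}) := mem_grow_self h1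
  have h3 : ∀ v, G.Adj x v → v ∈ grow G n {x} :=
    fun v hv => mem_grow_adj h (mem_singleton_self x) hv
  refine ⟨?_, ?_, ?_⟩
  · rintro rfl
    exact hy (mem_grow_self h2)
  · intro hxy
    exact hy (mem_grow_adj h h2 hxy)
  · intro u v hu hv
    refine ⟨?_, ?_⟩
    · rintro rfl
      exact hy (mem_grow_self (mem_grow_adj h (h3 u hu) hv.symm))
    · intro huv
      exact hy (mem_grow_adj h (mem_grow_adj h (h3 u hu) huv) hv.symm)

/-- pairs that may be used -/
structure Ok (G : SimpleGraph ℕ) (R : ℕ) (u : ℕ → ℕ) (x y : ℕ) : Prop where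
  ux : u x < R
  uy : u y < R
  far : Far G x y

/-- Many allowed pairs inside a set with large overlap. -/
theorem many_pairs {d : ℕ} (h : Base a n G) (hball : ∀ x, (ball G n x).card ≤ d)
    (hZ : (P.filter (fun z => R ≤ u z)).card ≤ d) (T : Finset ℕ) (hT : 4 * d ≤ (T ∩ P).card)
    (A : Finset (ℕ × ℕ)) (hA : ∀ x ∈ P, ∀ y ∈ P, Ok G R u x y → (x, y) ∈ A) :
    6 * d ^ 2 ≤ (A.filter (fun q => q.1 ∈ T ∧ q.2 ∈ T)).card := by
  obtain ⟨X, hX⟩ : ∃ X : Finset ℕ, X = (T ∩ P) \ P.filter (fun z => R ≤ u z) := ⟨_, rfl⟩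
  have hXc : 3 * d ≤ X.card := by
    have h1 := le_card_sdiff (P.filter (fun z => R ≤ u z)) (T ∩ P)
    rw [← hX] at h1
    omega
  have hYc : ∀ x ∈ X, 2 * d ≤ (X \ ball G n x).card := by
    intro x _
    have h1 := le_card_sdiff (ball G n x) X
    have h2 := hball x
    omega
  have hXm : ∀ z ∈ X, z ∈ T ∧ z ∈ P ∧ u z < R := by
    intro z hz
    rw [hX, mem_sdiff, mem_inter, mem_filter] at hz
    refine ⟨hz.1.1, hz.1.2, ?_⟩
    by_contra hcon
    exact hz.2 ⟨hz.1.2, by omega⟩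
  have h1 : (X.sigma (fun x => X \ ball G n x)).card ≤
      (A.filter (fun q => q.1 ∈ T ∧ q.2 ∈ T)).card := by
    apply card_le_card_of_injOn (fun q => (q.1, q.2))
    · intro q hq
      rw [mem_coe, mem_sigma, mem_sdiff] at hq
      rw [mem_coe, mem_filter]
      obtain ⟨hq1, hq2, hq3⟩ := hq
      have h4 := hXm _ hq1
      have h5 := hXm _ hq2
      refine ⟨hA _ h4.2.1 _ h5.2.1 ⟨h4.2.2, h5.2.2, far_of_notMem_ball h hq3⟩, h4.1, h5.1⟩
    · intro q _ q' _ hqq
      rw [Prod.mk.injEq] at hqq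
      obtain ⟨q1, q2⟩ := q
      obtain ⟨q1', q2'⟩ := q'
      simp only at hqq
      rw [hqq.1, hqq.2]
  rw [card_sigma] at h1
  have h2 : X.card • (2 * d) ≤ ∑ x ∈ X, (X \ ball G n x).card := card_nsmul_le_sum _ _ _ hYc
  rw [smul_eq_mul] at h2
  have h3 : 3 * d * (2 * d) ≤ X.card * (2 * d) := Nat.mul_le_mul_right _ hXc
  have h4 : 3 * d * (2 * d) = 6 * d ^ 2 := by ring
  omega

/-- There is an allowed pair that lies in many sets. -/
theorem exists_pair {d : ℕ} (h : Base a n G) (hball : ∀ x, (ball G n x).card ≤ d)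
    (hZ : (P.filter (fun z => R ≤ u z)).card ≤ d) (hd : 0 < d)
    (hns : W < 2 * ∑ T ∈ F.filter (fun T => 4 * d ≤ (T ∩ P).card), 2 ^ (T ∩ P).card) :
    ∃ x ∈ P, ∃ y ∈ P, Ok G R u x y ∧ 3 * d ^ 2 * W ≤
      P.card ^ 2 * ∑ T ∈ F.filter (fun T => x ∈ T ∧ y ∈ T), 2 ^ (T ∩ P).card := by
  by_contra hcon
  push Not at hcon
  classical
  set A : Finset (ℕ × ℕ) := (P ×ˢ P).filter (fun q => Ok G R u q.1 q.2) with hA
  have hAc : A.card ≤ P.card ^ 2 := by
    rw [hA]
    calc _ ≤ (P ×ˢ P).card := card_filter_le _ _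
      _ = P.card ^ 2 := by rw [card_product, sq]
  have hAm : ∀ x ∈ P, ∀ y ∈ P, Ok G R u x y → (x, y) ∈ A := by
    intro x hx y hy hxy
    rw [hA, mem_filter, mem_product]
    exact ⟨⟨hx, hy⟩, hxy⟩
  -- double counting
  have hdc : ∑ q ∈ A, ∑ T ∈ F.filter (fun T => q.1 ∈ T ∧ q.2 ∈ T), 2 ^ (T ∩ P).card =
      ∑ T ∈ F, (A.filter (fun q => q.1 ∈ T ∧ q.2 ∈ T)).card * 2 ^ (T ∩ P).card := by
    have h1 : ∀ T ∈ F, (A.filter (fun q => q.1 ∈ T ∧ q.2 ∈ T)).card * 2 ^ (T ∩ P).card =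
        ∑ q ∈ A.filter (fun q => q.1 ∈ T ∧ q.2 ∈ T), 2 ^ (T ∩ P).card := by
      intro T _
      rw [sum_const, smul_eq_mul]
    rw [sum_congr rfl h1]
    apply sum_comm'
    intro q T
    simp only [mem_filter]
    tauto
  have hlow : 6 * d ^ 2 * ∑ T ∈ F.filter (fun T => 4 * d ≤ (T ∩ P).card), 2 ^ (T ∩ P).card ≤
      ∑ q ∈ A, ∑ T ∈ F.filter (fun T => q.1 ∈ T ∧ q.2 ∈ T), 2 ^ (T ∩ P).card := by
    rw [hdc, mul_sum]
    calc _ ≤ ∑ T ∈ F.filter (fun T => 4 * d ≤ (T ∩ P).card),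
          (A.filter (fun q => q.1 ∈ T ∧ q.2 ∈ T)).card * 2 ^ (T ∩ P).card := by
          apply sum_le_sum
          intro T hT
          rw [mem_filter] at hT
          exact Nat.mul_le_mul_right _ (many_pairs h hball hZ T hT.2 A hAm)
      _ ≤ _ := sum_le_sum_of_subset (filter_subset _ _)
  set S1 := ∑ q ∈ A, ∑ T ∈ F.filter (fun T => q.1 ∈ T ∧ q.2 ∈ T), 2 ^ (T ∩ P).card with hS1
  have hd2 : 0 < d ^ 2 := by positivity
  have h1 : 3 * d ^ 2 * W < S1 := by
    nlinarith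
  have hP : 0 < P.card := by
    by_contra hP0
    have hP1 : P.card = 0 := by omega
    have hA0 : A.card = 0 := by
      rw [hP1] at hAc
      simpa using hAc
    rw [card_eq_zero] at hA0
    rw [hS1, hA0, sum_empty] at h1
    exact absurd h1 (Nat.not_lt_zero _)
  have hP2 : 0 < P.card ^ 2 := by positivity
  have h2 : P.card ^ 2 * S1 ≤ A.card • (3 * d ^ 2 * W) := by
    rw [hS1, mul_sum]
    apply sum_le_card_nsmul
    intro q hq
    rw [hA, mem_filter, mem_product] at hq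
    exact (hcon q.1 hq.1.1 q.2 hq.1.2 hq.2).le
  rw [smul_eq_mul] at h2
  have h3 : A.card * (3 * d ^ 2 * W) ≤ P.card ^ 2 * (3 * d ^ 2 * W) := Nat.mul_le_mul_right _ hAc
  have h4 : P.card ^ 2 * (3 * d ^ 2 * W) < P.card ^ 2 * S1 := Nat.mul_lt_mul_of_pos_left h1 hP2
  omega

/-- few vertices have been used often -/
theorem Stg.few (S : Stg a n₀ Δ R m W P n G F u) {d N : ℕ} (hN : n - n₀ ≤ N) (hR : 0 < R)
    (hRd : 2 * N ≤ R * d) : (P.filter (fun z => R ≤ u z)).card ≤ d := by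
  have h1 : (P.filter (fun z => R ≤ u z)).card • R ≤ ∑ z ∈ P.filter (fun z => R ≤ u z), u z := by
    apply card_nsmul_le_sum
    intro z hz
    exact (mem_filter.1 hz).2
  have h2 : ∑ z ∈ P.filter (fun z => R ≤ u z), u z ≤ ∑ z ∈ P, u z :=
    sum_le_sum_of_subset (filter_subset _ _)
  rw [smul_eq_mul] at h1
  rw [S.usum] at h2
  have h3 : (P.filter (fun z => R ≤ u z)).card * R ≤ d * R := by
    have h4 : R * d = d * R := mul_comm _ _
    omega
  exact Nat.le_of_mul_le_mul_right h3 hR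

/-- Running a stage until most of the weight is on sets that leave the pool. -/
theorem run {d N D : ℕ} (hP : P ⊆ range n₀) (hd : 0 < d) (hR : 0 < R) (hRd : 2 * N ≤ R * d)
    (hD : D = 2 * (Δ + R) + 4 * ((Δ + R) * R)) (hDd : (D + 1) ^ 3 ≤ d)
    (hW : 0 < W) (hN : a * P.card ^ 2 < 3 * d ^ 2 * N) :
    ∀ k n G F u, n = n₀ + (N - k) → k ≤ N → Stg a n₀ Δ R m W P n G F u →
      P.card ^ 2 * ∑ T ∈ F, 2 ^ (T ∩ P).card * (T ∩ P).card + 3 * d ^ 2 * W * (N - k) ≤
        P.card ^ 2 * (a * W) →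
      ∃ n' G' F' u', n' ≤ n₀ + N ∧ Stg a n₀ Δ R m W P n' G' F' u' ∧
        2 * ∑ T ∈ F'.filter (fun T => 4 * d ≤ (T ∩ P).card), 2 ^ (T ∩ P).card ≤ W := by
  intro k
  induction k with
  | zero =>
    intro n G F u hn _ S hpot
    exfalso
    have h1 : 3 * d ^ 2 * W * N ≤ P.card ^ 2 * (a * W) := by
      have : N - 0 = N := rfl
      rw [this] at hpot
      omega
    have h2 : a * P.card ^ 2 * W < 3 * d ^ 2 * N * W := Nat.mul_lt_mul_of_pos_right hN hW
    have h3 : a * P.card ^ 2 * W = P.card ^ 2 * (a * W) := by ring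
    have h4 : 3 * d ^ 2 * N * W = 3 * d ^ 2 * W * N := by ring
    omega
  | succ k ih =>
    intro n G F u hn hk S hpot
    by_cases hs : 2 * ∑ T ∈ F.filter (fun T => 4 * d ≤ (T ∩ P).card), 2 ^ (T ∩ P).card ≤ W
    · exact ⟨n, G, F, u, by omega, S, hs⟩
    · have hball : ∀ x, (ball G n x).card ≤ d := by
        intro x
        have h1 := ball_card S.base (D := D) (fun v hv => by rw [hD]; exact S.deg v hv) x
        omega
      have hfew := S.few (d := d) (N := N) (by omega) hR hRd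
      obtain ⟨x, hx, y, hy, hok, hdrop⟩ := exists_pair (F := F) (W := W) S.base hball hfew hd (by omega)
      have S' := S.step hP hx hy hok.ux hok.uy hok.far
      have hnP : n ∉ P := fun h => by have := mem_range.1 (hP h); omega
      have hF : ∀ T ∈ F, n ∉ T := fun T hT h => lt_irrefl _ ((S.fam T hT).1 n h)
      have hp := upd_pot (F := F) hF hok.far.ne hx hy hnP
      refine ih (n + 1) _ _ _ (by omega) (by omega) S' ?_
      have h1 : N - k = N - (k + 1) + 1 := by omega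
      have h2 : 3 * d ^ 2 * W * (N - k) = 3 * d ^ 2 * W * (N - (k + 1)) + 3 * d ^ 2 * W := by
        rw [h1]
        ring
      rw [← hp, mul_add] at hpot
      omega

/-- The outcome of a stage. -/
theorem stage {J d s Δ : ℕ} (hJ : 0 < J) (hs : 0 < s) (hd : 0 < d) {D : ℕ}
    (hD : D = 2 * (Δ + 6 * J * s ^ 2) + 4 * ((Δ + 6 * J * s ^ 2) * (6 * J * s ^ 2)))
    (hDd : (D + 1) ^ 3 ≤ d) {m n₀ : ℕ} {G : SimpleGraph ℕ} {F : Finset (Finset ℕ)}
    {P : Finset ℕ} (hb : Base (8 * J * d) n₀ G) (hF : Fam (8 * J * d) n₀ G F) (hne : F.Nonempty)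
    (hP : P ⊆ range n₀) (hPs : P.card ≤ s * d)
    (hdeg : ∀ v < n₀, (nb G (range n₀) v).card ≤ Δ) (hov : ∀ T ∈ F, m ≤ (T ∩ P).card) :
    ∃ (n : ℕ) (G' : SimpleGraph ℕ) (F' : Finset (Finset ℕ)) (P' : Finset ℕ),
      Base (8 * J * d) n G' ∧ Fam (8 * J * d) n G' F' ∧ F'.Nonempty ∧ P' ⊆ range n ∧
      P'.card ≤ (3 * J * s ^ 2) * d ∧ (∀ v < n, (nb G' (range n) v).card ≤ D) ∧
      (∀ T ∈ F', m ≤ (T ∩ P').card + 4 * d) ∧
      F.card * 2 ^ m ≤ F'.card * 2 ^ (4 * d + 1) := by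
  set R := 6 * J * s ^ 2 with hRdef
  set N := (3 * J * s ^ 2) * d with hNdef
  have hR : 0 < R := by positivity
  set W := ∑ T ∈ F, 2 ^ (T ∩ P).card with hWdef
  have hWlow : F.card * 2 ^ m ≤ W := by
    rw [hWdef, ← smul_eq_mul]
    apply card_nsmul_le_sum
    intro T hT
    exact Nat.pow_le_pow_right (by norm_num) (hov T hT)
  have hFc : 0 < F.card := card_pos.2 hne
  have hW : 0 < W := lt_of_lt_of_le (by positivity) hWlow
  have hnbIco : ∀ v, nb G (Ico n₀ n₀) v = ∅ := by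
    intro v
    rw [eq_empty_iff_forall_notMem]
    intro z hz
    rw [mem_nb, mem_Ico] at hz
    omega
  have S0 : Stg (8 * J * d) n₀ Δ R m W P n₀ G F (fun _ => 0) := by
    refine ⟨hb, hF, le_refl _, fun _ => Nat.zero_le _, ?_, rfl, ?_, ?_, ?_, ?_, ?_⟩
    · simp
    · intro T hT
      have := hov T hT
      omega
    · intro v hv
      have := hdeg v hv
      omega
    · intro v hv
      have := hdeg v hv
      omega
    · intro v _
      rw [hnbIco, card_empty]
      exact Nat.zero_le _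
    · intro v _
      rw [hnbIco, card_empty]
      exact Nat.zero_le _
  have hPsq : P.card ^ 2 ≤ (s * d) ^ 2 := Nat.pow_le_pow_left hPs 2
  have hNlt : 8 * J * d * P.card ^ 2 < 3 * d ^ 2 * N := by
    calc 8 * J * d * P.card ^ 2 ≤ 8 * J * d * (s * d) ^ 2 := Nat.mul_le_mul_left _ hPsq
      _ = 8 * (J * s ^ 2 * d ^ 3) := by ring
      _ < 9 * (J * s ^ 2 * d ^ 3) := by
          apply Nat.mul_lt_mul_of_pos_right (by norm_num)
          positivity
      _ = 3 * d ^ 2 * N := by rw [hNdef]; ring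
  have hpot0 : P.card ^ 2 * ∑ T ∈ F, 2 ^ (T ∩ P).card * (T ∩ P).card +
      3 * d ^ 2 * W * (N - N) ≤ P.card ^ 2 * (8 * J * d * W) := by
    rw [Nat.sub_self, mul_zero, add_zero]
    apply Nat.mul_le_mul_left
    rw [hWdef, mul_sum]
    apply sum_le_sum
    intro T hT
    rw [mul_comm]
    apply Nat.mul_le_mul_right
    rw [← (hF T hT).2.2]
    exact card_le_card inter_subset_left
  obtain ⟨n, G', F', u, hn, S, hstop⟩ := run (m := m) (a := 8 * J * d) (Δ := Δ) hP hd hR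
    (N := N) (by rw [hRdef, hNdef]; ring_nf; exact le_refl _) hD hDd hW hNlt N n₀ G F (fun _ => 0)
    (by omega) (le_refl _) S0 hpot0
  have hsplit : ∑ T ∈ F'.filter (fun T => ¬ 4 * d ≤ (T ∩ P).card), 2 ^ (T ∩ P).card +
      ∑ T ∈ F'.filter (fun T => 4 * d ≤ (T ∩ P).card), 2 ^ (T ∩ P).card = W := by
    rw [sum_filter_not_add_sum_filter]
    exact S.w
  have hup : ∑ T ∈ F'.filter (fun T => ¬ 4 * d ≤ (T ∩ P).card), 2 ^ (T ∩ P).card ≤
      (F'.filter (fun T => ¬ 4 * d ≤ (T ∩ P).card)).card * 2 ^ (4 * d) := by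
    rw [← smul_eq_mul]
    apply sum_le_card_nsmul
    intro T hT
    rw [mem_filter] at hT
    exact Nat.pow_le_pow_right (by norm_num) (by omega)
  have hcard : F.card * 2 ^ m ≤
      (F'.filter (fun T => ¬ 4 * d ≤ (T ∩ P).card)).card * 2 ^ (4 * d + 1) := by
    rw [pow_succ]
    have h3 : (F'.filter (fun T => ¬ 4 * d ≤ (T ∩ P).card)).card * (2 ^ (4 * d) * 2) =
      2 * ((F'.filter (fun T => ¬ 4 * d ≤ (T ∩ P).card)).card * 2 ^ (4 * d)) := by ring
    rw [h3]
    omega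
  refine ⟨n, G', F'.filter (fun T => ¬ 4 * d ≤ (T ∩ P).card), Ico n₀ n, S.base, ?_, ?_, ?_, ?_,
    ?_, ?_, hcard⟩
  · intro T hT
    exact S.fam T (mem_filter.1 hT).1
  · rw [← card_pos]
    by_contra h0
    have h1 : (F'.filter (fun T => ¬ 4 * d ≤ (T ∩ P).card)).card = 0 := by omega
    rw [h1, zero_mul] at hcard
    have : 0 < F.card * 2 ^ m := by positivity
    omega
  · intro z hz
    rw [mem_Ico] at hz
    exact mem_range.2 hz.2
  · rw [Nat.card_Ico]
    omega
  · intro v hv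
    rw [hD]
    exact S.deg v hv
  · intro T hT
    rw [mem_filter] at hT
    have := S.ov T hT.1
    omega

end Pool.Agent.W156.MIS
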