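import Pool.Agent.W156.MISc

set_option autoImplicit false

/-!
# Iterating the stages, and the passage to `Fin n`
-/

namespace Pool.Agent.W156.MIS

open Finset

/-- After `j` stages. -/
theorem stages {J : ℕ} (hJ : 0 < J) : ∀ j, j ≤ J → ∃ s Δ d₀ : ℕ, 0 < s ∧ 0 < d₀ ∧ ∀ d, d₀ ≤ d →
    ∃ (n : ℕ) (G : SimpleGraph ℕ) (F : Finset (Finset ℕ)) (P : Finset ℕ),
      Base (8 * J * d) n G ∧ Fam (8 * J * d) n G F ∧ F.Nonempty ∧ P ⊆ range n ∧
      P.card ≤ s * d ∧ (∀ v < n, (nb G (range n) v).card ≤ Δ) ∧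
      (∀ T ∈ F, 8 * J * d ≤ (T ∩ P).card + 4 * d * j) ∧
      2 ^ (j * (4 * J * d)) ≤ F.card * 2 ^ j := by
  intro j
  induction j with
  | zero =>
    intro _
    refine ⟨8 * J, 0, 1, by omega, by omega, ?_⟩
    intro d _
    refine ⟨8 * J * d, ⊥, {range (8 * J * d)}, range (8 * J * d), ?_, ?_, ?_, ?_, ?_, ?_, ?_, ?_⟩
    · refine ⟨?_, ?_, ?_⟩
      · intro x y h
        exact absurd h (by simp)
      · intro x y z h
        exact absurd h (by simp)
      · intro S hS _
        have h1 : S ⊆ range (8 * J * d) := fun x hx => mem_range.2 (hS x hx)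
        have h2 := card_le_card h1
        rwa [card_range] at h2
    · intro T hT
      rw [mem_singleton] at hT
      subst hT
      refine ⟨fun u hu => mem_range.1 hu, ?_, card_range _⟩
      intro u _ v _ h
      exact absurd h (by simp)
    · exact singleton_nonempty _
    · exact Subset.refl _
    · rw [card_range]
    · intro v _
      have h1 : nb ⊥ (range (8 * J * d)) v = ∅ := by
        rw [eq_empty_iff_forall_notMem]
        intro z hz
        rw [mem_nb] at hz
        exact absurd hz.2 (by simp)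
      rw [h1, card_empty]
    · intro T hT
      rw [mem_singleton] at hT
      subst hT
      rw [inter_self, card_range]
      omega
    · simp
  | succ j ih =>
    intro hj
    obtain ⟨s, Δ, d₀, hs, hd₀, h⟩ := ih (by omega)
    obtain ⟨D, hD⟩ : ∃ D, D = 2 * (Δ + 6 * J * s ^ 2) +
      4 * ((Δ + 6 * J * s ^ 2) * (6 * J * s ^ 2)) := ⟨_, rfl⟩
    refine ⟨3 * J * s ^ 2, D, d₀ + (D + 1) ^ 3, by positivity, by omega, ?_⟩
    intro d hd
    obtain ⟨n, G, F, P, hb, hF, hne, hP, hPs, hdeg, hov, hcard⟩ := h d (by omega)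
    obtain ⟨n', G', F', P', hb', hF', hne', hP', hPs', hdeg', hov', hcard'⟩ :=
      stage (m := 8 * J * d - 4 * d * j) hJ hs (show 0 < d by omega) hD (by omega) hb hF hne hP hPs
        hdeg (fun T hT => by have := hov T hT; omega)
    refine ⟨n', G', F', P', hb', hF', hne', hP', hPs', hdeg', ?_, ?_⟩
    · intro T hT
      have h1 := hov' T hT
      have h2 : 4 * d * (j + 1) = 4 * d * j + 4 * d := by ring
      omega
    · have h1 : 4 * d * (j + 1) ≤ 4 * d * J := Nat.mul_le_mul_left _ hj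
      have h2 : 8 * J * d - 4 * d * j = (8 * J * d - 4 * d * (j + 1)) + 4 * d := by
        have h3 : 4 * d * (j + 1) = 4 * d * j + 4 * d := by ring
        have h4 : 8 * J * d = 2 * (4 * d * J) := by ring
        omega
      have h5 : 4 * J * d ≤ 8 * J * d - 4 * d * (j + 1) := by
        have h4 : 8 * J * d = 2 * (4 * d * J) := by ring
        have h6 : 4 * J * d = 4 * d * J := by ring
        omega
      have h6 : F.card * 2 ^ (8 * J * d - 4 * d * (j + 1)) ≤ F'.card * 2 := by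
        rw [h2, pow_add, pow_succ] at hcard'
        have h7 : F.card * 2 ^ (8 * J * d - 4 * d * (j + 1)) * 2 ^ (4 * d) ≤
            F'.card * 2 * 2 ^ (4 * d) := by
          calc _ = F.card * (2 ^ (8 * J * d - 4 * d * (j + 1)) * 2 ^ (4 * d)) := by ring
            _ ≤ F'.card * (2 ^ (4 * d) * 2) := hcard'
            _ = _ := by ring
        exact Nat.le_of_mul_le_mul_right h7 (by positivity)
      calc 2 ^ ((j + 1) * (4 * J * d)) = 2 ^ (j * (4 * J * d)) * 2 ^ (4 * J * d) := by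
            rw [← pow_add]; congr 1; ring
        _ ≤ (F.card * 2 ^ j) * 2 ^ (8 * J * d - 4 * d * (j + 1)) :=
            Nat.mul_le_mul hcard (Nat.pow_le_pow_right (by norm_num) h5)
        _ = (F.card * 2 ^ (8 * J * d - 4 * d * (j + 1))) * 2 ^ j := by ring
        _ ≤ (F'.card * 2) * 2 ^ j := Nat.mul_le_mul_right _ h6
        _ = F'.card * 2 ^ (j + 1) := by ring

/-- There are triangle-free graphs whose number of maximum independent sets is superexponential
in the independence number. -/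
theorem exists_graph {J : ℕ} (hJ : 0 < J) : ∃ d₀ : ℕ, 0 < d₀ ∧ ∀ d, d₀ ≤ d →
    ∃ (n : ℕ) (G : SimpleGraph (Fin n)), G.CliqueFree 3 ∧ G.indepNum = 8 * J * d ∧
      2 ^ (J * (4 * J * d)) ≤ {s : Finset (Fin n) | G.IsNIndepSet G.indepNum s}.ncard * 2 ^ J := by
  obtain ⟨s, Δ, d₀, hs, hd₀, h⟩ := stages hJ J (le_refl _)
  refine ⟨d₀, hd₀, ?_⟩
  intro d hd
  obtain ⟨n, G, F, P, hb, hF, hne, hP, hPs, hdeg, hov, hcard⟩ := h d hd
  clear hP hPs hdeg hov
  obtain ⟨a, ha⟩ : ∃ a, a = 8 * J * d := ⟨_, rfl⟩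
  rw [← ha] at hb hF ⊢
  set H : SimpleGraph (Fin n) := G.comap (fun i : Fin n => (i : ℕ)) with hH
  have hHadj : ∀ i j : Fin n, H.Adj i j ↔ G.Adj i j := fun i j => Iff.rfl
  have htri : H.CliqueFree 3 := by
    intro t ht
    rw [SimpleGraph.is3Clique_iff] at ht
    obtain ⟨x, y, z, h1, h2, h3, -⟩ := ht
    exact hb.tri _ _ _ ((hHadj _ _).1 h1) ((hHadj _ _).1 h3) ((hHadj _ _).1 h2)
  -- sets in the family are independent sets of size `a` of `H`
  have hle : ∀ t : Finset (Fin n), H.IsIndepSet (t : Set (Fin n)) → t.card ≤ a := by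
    intro t ht
    have h1 := hb.ind (t.image (fun i : Fin n => (i : ℕ))) (by
      intro x hx
      rw [mem_image] at hx
      obtain ⟨i, -, rfl⟩ := hx
      exact i.2) (by
      intro x hx y hy hxy
      rw [mem_image] at hx hy
      obtain ⟨i, hi, rfl⟩ := hx
      obtain ⟨j, hj, rfl⟩ := hy
      have hne : i ≠ j := by
        rintro rfl
        exact hxy.ne rfl
      exact ht (mem_coe.2 hi) (mem_coe.2 hj) hne ((hHadj i j).2 hxy))
    rwa [card_image_of_injective _ Fin.val_injective] at h1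
  have hmemF : ∀ T ∈ F, H.IsNIndepSet a (univ.filter (fun i : Fin n => (i : ℕ) ∈ T)) := by
    intro T hT
    obtain ⟨h1, h2, h3⟩ := hF T hT
    refine ⟨?_, ?_⟩
    · intro i hi j hj _ hij
      rw [mem_coe, mem_filter] at hi hj
      exact h2 _ hi.2 _ hj.2 ((hHadj i j).1 hij)
    · rw [← h3]
      have h4 : (univ.filter (fun i : Fin n => (i : ℕ) ∈ T)).image (fun i : Fin n => (i : ℕ)) = T := by
        ext v
        rw [mem_image]
        constructor
        · rintro ⟨i, hi, rfl⟩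
          exact (mem_filter.1 hi).2
        · intro hv
          exact ⟨⟨v, h1 v hv⟩, mem_filter.2 ⟨mem_univ _, hv⟩, rfl⟩
      rw [← card_image_of_injective _ (Fin.val_injective (n := n)), h4]
  have hnum : H.indepNum = a := by
    apply le_antisymm
    · obtain ⟨t, ht⟩ := H.exists_isNIndepSet_indepNum
      rw [← ht.card_eq]
      exact hle t ht.isIndepSet
    · obtain ⟨T, hT⟩ := hne
      have h1 := (hmemF T hT).isIndepSet.card_le_indepNum
      rwa [(hmemF T hT).card_eq] at h1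
  refine ⟨n, H, htri, hnum, ?_⟩
  rw [hnum]
  refine hcard.trans (Nat.mul_le_mul_right _ ?_)
  rw [← Set.ncard_coe_finset F]
  apply Set.ncard_le_ncard_of_injOn (fun T => univ.filter (fun i : Fin n => (i : ℕ) ∈ T))
  · intro T hT
    exact hmemF T (mem_coe.1 hT)
  · intro T hT T' hT' heq
    obtain ⟨h1, -, -⟩ := hF T (mem_coe.1 hT)
    obtain ⟨h1', -, -⟩ := hF T' (mem_coe.1 hT')
    ext v
    have h2 := congrArg (fun S : Finset (Fin n) => ∀ h : v < n, (⟨v, h⟩ : Fin n) ∈ S) heq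
    simp only [mem_filter, mem_univ, true_and, eq_iff_iff] at h2
    constructor
    · intro hv
      exact h2.1 (fun _ => hv) (h1 v hv)
    · intro hv
      exact h2.2 (fun _ => hv) (h1' v hv)

/-- The final count. -/
theorem main (C : ℝ) : ∃ (n : ℕ) (G : SimpleGraph (Fin n)), G.CliqueFree 3 ∧
    (2 : ℝ) ^ (C * (G.indepNum : ℝ)) <
      (({s : Finset (Fin n) | G.IsNIndepSet G.indepNum s}.ncard : ℕ) : ℝ) := by
  obtain ⟨J, hJC⟩ := exists_nat_ge (2 * C + 1)
  obtain ⟨J', hJ', hJ0⟩ : ∃ J' : ℕ, J ≤ J' ∧ 0 < J' := ⟨J + 1, by omega, by omega⟩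
  obtain ⟨d₀, hd₀, h⟩ := exists_graph hJ0
  obtain ⟨n, G, htri, hnum, hc⟩ := h d₀ (le_refl _)
  refine ⟨n, G, htri, ?_⟩
  by_contra hcon
  push Not at hcon
  set A := {s : Finset (Fin n) | G.IsNIndepSet G.indepNum s}.ncard with hA
  rw [hnum] at hcon
  have h1 : ((2 : ℝ) ^ (J' * (4 * J' * d₀)) : ℝ) ≤ (A : ℝ) * (2 : ℝ) ^ J' := by exact_mod_cast hc
  have h2 : ((2 : ℝ) ^ (J' * (4 * J' * d₀)) : ℝ) ≤
      (2 : ℝ) ^ (C * ((8 * J' * d₀ : ℕ) : ℝ)) * (2 : ℝ) ^ J' :=
    h1.trans (mul_le_mul_of_nonneg_right hcon (by positivity))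
  rw [← Real.rpow_natCast, ← Real.rpow_natCast, ← Real.rpow_add (by norm_num)] at h2
  rw [Real.rpow_le_rpow_left_iff (by norm_num)] at h2
  push_cast at h2
  have h3 : (2 * C + 1 : ℝ) ≤ J' := hJC.trans (by exact_mod_cast hJ')
  have h4 : (1 : ℝ) ≤ J' := by exact_mod_cast hJ0
  have h5 : (1 : ℝ) ≤ d₀ := by exact_mod_cast hd₀
  have h6 : (J' : ℝ) * (4 * J' * d₀ - 8 * C * d₀ - 1) ≤ 0 := by nlinarith
  have h7 : (3 : ℝ) ≤ 4 * J' * d₀ - 8 * C * d₀ - 1 := by nlinarith
  nlinarith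

end Pool.Agent.W156.MIS
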