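import Pool.Agent.W792.WA.Stm
import Pool.Agent.W792.LL.F4
import Pool.Agent.W883.LL.Rep
import Pool.Agent.W583.LL.Mt
import Pool.Agent.W918.LL.Opr
import Pool.Agent.W762.LL.Zf
import Pool.Agent.W335.LLCay
import Pool.Agent.W320.LL.Gz
import Pool.Agent.W613.LLShift
import Pool.Agent.W52.LL.Conv
import Pool.Agent.W792.LL.Dia

/-!
Project WA (MP_28b024_mp), final assembly.
-/

namespace Pool.Agent.W156.WAFin

open MeasureTheory Filter Pool.Agent.W792.LL Pool.Agent.W792.WA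
open scoped Topology

noncomputable section

theorem hO : S_OPR := Pool.Agent.W918.LL.main
theorem hD : S_DIA := Pool.Agent.W792.LL.DiaP.main
theorem hCay : S_CAY := Pool.Agent.W335.LLCay.main
theorem hZ : S_ZF := Pool.Agent.W762.LL.main hO hD
theorem hC : S_CON := Pool.Agent.W52.LL.Conv.main
theorem hG : S_GZ := Pool.Agent.W320.LL.main hO hD hCay hC
theorem hR : S_REP := Pool.Agent.W883.LL.main hO
theorem hMT : S_MT := Pool.Agent.W583.LL.main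
theorem hS : S_SHIFT := Pool.Agent.W613.LLShift.main

/-- The factor between `Pf` and the imaginary part of the Green function. -/
def Aw {d : ℕ} (v : (Fin d → ℤ) → ℝ) : ℝ := ‖1 - cay (v 0)‖ ^ 2 / 4

theorem Aw_pos {d : ℕ} (v : (Fin d → ℤ) → ℝ) : 0 < Aw v := by
  unfold Aw
  rw [(hCay.2.2.1 (v 0)).1]
  positivity

theorem gf_im {d : ℕ} (f : C(ℝ, ℝ)) (v : (Fin d → ℤ) → ℝ) (η E : ℝ) :
    (gf (fK f d) 1 v ⟨E, η⟩).im = Aw v * Pf d f η E v := by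
  have h1 := (hCay.2.2.1 (v 0)).2
  unfold gf Aw Pf
  set Z := Zf (us (Measure.dirac 0) 1 ⟨E, η⟩ (fK f d)) fun x => cay (v x) with hZ
  set c := cay (v 0) with hc
  set N : ℝ := ‖1 - c‖ ^ 2 with hN
  have h2 : (1 / (2 * Complex.I * ((1 : ℝ) : ℂ)) : ℂ) = -(Complex.I * ((1 / 2 : ℝ) : ℂ)) := by
    push_cast
    field_simp
    rw [Complex.I_sq]; ring
  rw [h2]
  simp only [Complex.mul_im, Complex.mul_re, Complex.neg_re, Complex.neg_im, Complex.I_re,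
    Complex.I_im, Complex.ofReal_re, Complex.ofReal_im, Complex.sub_re, Complex.sub_im,
    Complex.one_re, Complex.one_im, Complex.conj_re, Complex.conj_im]
  have h3 : c.re = 1 - N / 2 := by linarith
  rw [h3]
  field_simp
  ring

theorem rep {d : ℕ} (f : C(ℝ, ℝ)) (v : (Fin d → ℤ) → ℝ) (z z' : ℂ) (hz : 0 < z.im)
    (hz' : 0 < z'.im) : ‖gf (fK f d) 1 v z - gf (fK f d) 1 v z'‖ ≤ ‖z - z'‖ / (z.im * z'.im) :=
  (hR d (fK f d) 1 v (gf (fK f d) 1 v) (fun z hz => by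
      obtain ⟨⟨w, hw⟩, h2⟩ := hG d (fK f d) 1 one_pos v z hz
      exact ⟨w, hw, h2 w hw⟩)).2.1 z z' hz hz'

theorem Pf_cont {d : ℕ} (f : C(ℝ, ℝ)) {η : ℝ} (hη : 0 < η) (v : (Fin d → ℤ) → ℝ) :
    Continuous fun E : ℝ => Pf d f η E v := by
  have hcont : Continuous fun E : ℝ => (gf (fK f d) 1 v ⟨E, η⟩).im := by
    refine Complex.continuous_im.comp ?_
    have hlip : LipschitzWith (Real.toNNReal (1 / (η * η)))
        (fun E : ℝ => gf (fK f d) 1 v ⟨E, η⟩) := by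
      refine LipschitzWith.of_dist_le_mul fun E E' => ?_
      rw [dist_eq_norm, dist_eq_norm, Real.coe_toNNReal _ (by positivity)]
      refine (rep f v ⟨E, η⟩ ⟨E', η⟩ hη hη).trans ?_
      have h3 : ‖(⟨E, η⟩ : ℂ) - ⟨E', η⟩‖ = ‖E - E'‖ := by
        have : (⟨E, η⟩ : ℂ) - ⟨E', η⟩ = ((E - E' : ℝ) : ℂ) := by
          apply Complex.ext <;> simp
        rw [this, Complex.norm_real]
      rw [h3]
      apply le_of_eq
      change ‖E - E'‖ / (η * η) = _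
      ring
    exact hlip.continuous
  have h1 : (fun E : ℝ => Pf d f η E v)
      = fun E => (Aw v)⁻¹ * (gf (fK f d) 1 v ⟨E, η⟩).im := by
    funext E
    rw [gf_im, inv_mul_cancel_left₀ (Aw_pos v).ne']
  rw [h1]
  exact hcont.const_mul _

theorem adm {d : ℕ} (hd : 0 < d) {E η : ℝ} (hη : 0 ≤ η) (hη1 : η ≤ 1) {m : ℕ}
    (h : |E| ≤ (m : ℝ)) : Fn.Adm (d + m) d 1 ⟨E, η⟩ := by
  have h0 : (0 : ℝ) ≤ d := by positivity
  have h1 : (0 : ℝ) ≤ m := by positivity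
  refine ⟨hd, by omega, ?_, ?_, ?_, hη, hη1⟩
  · rw [div_le_iff₀ (by positivity)]
    push_cast; linarith
  · push_cast; linarith
  · change |E| ≤ _
    push_cast; linarith

theorem sqrt_lt' {g : ℝ} (hg : 0 < g) : Real.sqrt (1 - g) < 1 := by
  rw [Real.sqrt_lt' one_pos]
  linarith

theorem us_le {d : ℕ} (hd : 0 < d) (f : C(ℝ, ℝ)) {ε : ℝ} (hε : 0 < ε) (hf : ∀ t, |f t - t| ≤ ε)
    {E η : ℝ} (hη : 0 < η) (hη1 : η ≤ 1) {m : ℕ} (h : |E| ≤ (m : ℝ)) :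
    ‖us (Measure.dirac 0) 1 ⟨E, η⟩ (fK f d)‖
      ≤ Real.sqrt (1 - 4 * 1 * η / Fn.Dn ε (d + m) ^ 2) :=
  Fn.Us_dirac_le hC hε (adm hd hη.le hη1 h) hf

theorem gap_pos {d m : ℕ} {ε : ℝ} (hε : 0 < ε) {η : ℝ} (hη : 0 < η) :
    0 < 4 * 1 * η / Fn.Dn ε (d + m) ^ 2 := by
  have := Fn.Dn_pos hε (d + m)
  positivity

theorem Pf_meas (hM : S_MZP) {d : ℕ} (hd : 0 < d) (f : C(ℝ, ℝ)) {ε : ℝ} (hε : 0 < ε)
    (hf : ∀ t, |f t - t| ≤ ε) {η : ℝ} (hη : 0 < η) (hη1 : η ≤ 1) (E : ℝ) :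
    Measurable (Pf d f η E) := by
  obtain ⟨m, hm⟩ := exists_nat_ge |E|
  have h1 := hM d (us (Measure.dirac 0) 1 ⟨E, η⟩ (fK f d)) _ (sqrt_lt' (gap_pos hε hη))
    (us_le hd f hε hf hη hη1 hm)
  exact (((Complex.measurable_re.comp h1).const_mul 2).sub_const 1)

theorem Pf_bound {d : ℕ} (hd : 0 < d) (f : C(ℝ, ℝ)) {ε : ℝ} (hε : 0 < ε)
    (hf : ∀ t, |f t - t| ≤ ε) {η : ℝ} (hη : 0 < η) (hη1 : η ≤ 1) (m : ℕ) :
    ∃ C : ℝ, ∀ E v, |E| ≤ (m : ℝ) → |Pf d f η E v| ≤ C := by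
  set q := Real.sqrt (1 - 4 * 1 * η / Fn.Dn ε (d + m) ^ 2) with hqdef
  have hq : q < 1 := sqrt_lt' (gap_pos hε hη)
  refine ⟨2 * (1 / (1 - q)) + 1, fun E v hE => ?_⟩
  have h1 := us_le hd f hε hf hη hη1 hE
  rw [← hqdef] at h1
  have h2 := (hZ d _ _ (fun x => cay (v x)) q (Real.sqrt_nonneg _) hq h1 h1
    (fun x => (hCay.1 _).le)).2.1
  have h3 := Complex.abs_re_le_norm
    (Zf (us (Measure.dirac 0) 1 ⟨E, η⟩ (fK f d)) (fun x => cay (v x)))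
  unfold Pf
  calc |2 * (Zf (us (Measure.dirac 0) 1 ⟨E, η⟩ (fK f d)) (fun x => cay (v x))).re - 1|
      ≤ |2 * (Zf (us (Measure.dirac 0) 1 ⟨E, η⟩ (fK f d)) (fun x => cay (v x))).re|
        + |(1 : ℝ)| := abs_sub _ _
    _ = 2 * |(Zf (us (Measure.dirac 0) 1 ⟨E, η⟩ (fK f d)) (fun x => cay (v x))).re| + 1 := by
      rw [abs_mul, abs_two, abs_one]
    _ ≤ _ := by linarith

/-- The property proved for almost every potential, at the origin. -/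
def QQ (d : ℕ) (f : C(ℝ, ℝ)) (v : (Fin d → ℤ) → ℝ) : Prop :=
  ∃ (μ : Measure ℝ) (h : ℝ → ℝ), IsFiniteMeasure μ ∧
    (∀ z : ℂ, 0 < z.im → (∃ w, Sol (ker f d) 1 v z 0 w) ∧
      ∀ w, Sol (ker f d) 1 v z 0 w → w 0 = ∫ E : ℝ, 1 / ((E : ℂ) - z) ∂μ) ∧
    Measurable h ∧ (∀ᵐ E ∂(volume.restrict (Set.Ioo (0 : ℝ) (4 * d))), 0 < h E) ∧
    μ.restrict (Set.Ioo (0 : ℝ) (4 * d))
      = (volume.restrict (Set.Ioo (0 : ℝ) (4 * d))).withDensity fun E => ENNReal.ofReal (h E)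

theorem ae_bdd (ν : Measure ℝ) [IsProbabilityMeasure ν] (d : ℕ) (C : ℝ)
    (h : ∀ᵐ x ∂ν, |x| ≤ C) : ∀ᵐ v ∂(Pn ν (Fin d → ℤ)), ∀ x, |v x| ≤ C := by
  rw [ae_all_iff]
  intro x
  exact (measurePreserving_eval_infinitePi (fun _ : Fin d → ℤ => ν) x).quasiMeasurePreserving.ae h

theorem ae_QQ (hSPM : S_SPM) (hACI : S_ACI) (hM : S_MZP) (d : ℕ) (hd : 0 < d)
    (ν : Measure ℝ) [IsProbabilityMeasure ν] (C : ℝ) (hb : ∀ᵐ x ∂ν, |x| ≤ C) (f : C(ℝ, ℝ))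
    {ε : ℝ} (hε : 0 < ε) (hf : ∀ t, |f t - t| ≤ ε) (η p : ℕ → ℝ)
    (hη : ∀ n, 0 < η n ∧ η n ≤ 1) (hη0 : Tendsto η atTop (𝓝 0)) (hp : ∀ n, 0 < p n)
    (hpa : Antitone p)
    (hch : ∀ (n : ℕ) (E : ℝ), 0 ≤ E → E ≤ 4 * d →
        ∫ v, |Pf d f (η (n + 1)) E v - Pf d f (η n) E v| ∂(Pn ν (Fin d → ℤ)) ≤ p n / 4 ^ n ∧
        (Pn ν (Fin d → ℤ) {v | Pf d f (η n) E v < p n}).toReal ≤ 1 / 4 ^ n) :
    ∀ᵐ v ∂(Pn ν (Fin d → ℤ)), QQ d f v := by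
  classical
  set P : ℕ → ℝ → ((Fin d → ℤ) → ℝ) → ℝ := fun n E v =>
    if E ∈ Set.Icc (0 : ℝ) (4 * d) then Pf d f (η n) E v else p 0 with hPdef
  have hP1 : ∀ (n : ℕ) (E : ℝ) v, E ∈ Set.Icc (0 : ℝ) (4 * d) → P n E v = Pf d f (η n) E v := by
    intro n E v h
    simp only [hPdef]
    rw [if_pos h]
  have hP2 : ∀ (n : ℕ) (E : ℝ) v, E ∉ Set.Icc (0 : ℝ) (4 * d) → P n E v = p 0 := by
    intro n E v h
    simp only [hPdef]
    rw [if_neg h]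
  have hmt := hMT ((Fin d → ℤ) → ℝ) (Pn ν (Fin d → ℤ)) P p ?_ hp hpa ?_ ?_ ?_
  rotate_left
  · intro n
    have h1 : Measurable (Function.uncurry fun (E : ℝ) (v : (Fin d → ℤ) → ℝ) =>
        Pf d f (η n) E v) :=
      measurable_uncurry_of_continuous_of_measurable (fun v => Pf_cont f (hη n).1 v)
        (fun E => Pf_meas hM hd f hε hf (hη n).1 (hη n).2 E)
    have h2 : MeasurableSet {p : ℝ × ((Fin d → ℤ) → ℝ) | p.1 ∈ Set.Icc (0 : ℝ) (4 * d)} :=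
      measurable_fst measurableSet_Icc
    exact Measurable.ite h2 h1 measurable_const
  · intro n
    obtain ⟨B, hB⟩ := Pf_bound hd f hε hf (hη n).1 (hη n).2 (4 * d)
    refine ⟨max B (p 0), fun E v => ?_⟩
    by_cases hE : E ∈ Set.Icc (0 : ℝ) (4 * d)
    · rw [hP1 n E v hE]
      refine (hB E v ?_).trans (le_max_left _ _)
      rw [abs_of_nonneg hE.1]
      push_cast
      exact hE.2
    · rw [hP2 n E v hE, abs_of_pos (hp 0)]
      exact le_max_right _ _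
  · intro n E _
    by_cases hE : E ∈ Set.Icc (0 : ℝ) (4 * d)
    · have := (hch n E hE.1 hE.2).1
      simp only [hP1 _ E _ hE]
      exact this
    · simp only [hP2 _ E _ hE, sub_self, abs_zero, integral_zero]
      have := hp n
      positivity
  · intro n E _
    by_cases hE : E ∈ Set.Icc (0 : ℝ) (4 * d)
    · have := (hch n E hE.1 hE.2).2
      simp only [hP1 _ E _ hE]
      exact this
    · have h1 : ¬ p 0 < p n := not_lt.2 (hpa (Nat.zero_le n))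
      simp only [hP2 _ E _ hE, h1, Set.ofPred_false, measure_empty, ENNReal.toReal_zero]
      positivity
  filter_upwards [hmt, ae_bdd ν d C hb] with v hv hvC
  obtain ⟨hv1, hv2⟩ := hv
  obtain ⟨μ, hμ, hμs⟩ := hSPM d (fK f d) v C hvC
  have hgf : ∀ z : ℂ, 0 < z.im → ∫ E : ℝ, 1 / ((E : ℂ) - z) ∂μ = gf (fK f d) 1 v z := by
    intro z hz
    obtain ⟨⟨w, hw⟩, h2⟩ := hμs z hz
    rw [← h2 w hw]
    exact (hG d (fK f d) 1 one_pos v z hz).2 w hw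
  have hA0 := Aw_pos v
  have hF : ∀ (n : ℕ) (E : ℝ), (∫ t : ℝ, 1 / ((t : ℂ) - ⟨E, η n⟩) ∂μ).im
      = Aw v * Pf d f (η n) E v := by
    intro n E
    rw [hgf ⟨E, η n⟩ (hη n).1, gf_im]
  have hd' : (0 : ℝ) < 4 * d := by positivity
  have hsum : Summable fun n : ℕ => ∫ E in Set.Icc (0 : ℝ) (4 * d),
      |(∫ t : ℝ, 1 / ((t : ℂ) - ⟨E, η (n + 1)⟩) ∂μ).im
        - (∫ t : ℝ, 1 / ((t : ℂ) - ⟨E, η n⟩) ∂μ).im| := by
    refine ((hv1 (4 * d)).mul_left (Aw v)).congr fun n => ?_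
    rw [← integral_const_mul]
    have h1 : Set.Icc (0 : ℝ) (4 * d) = Set.Icc (-((4 * d : ℕ) : ℝ)) ((4 * d : ℕ) : ℝ)
        ∩ Set.Icc (0 : ℝ) (4 * d) := by
      rw [Set.inter_eq_right.2]
      push_cast
      exact Set.Icc_subset_Icc (by linarith) le_rfl
    rw [h1, ← setIntegral_indicator measurableSet_Icc]
    refine setIntegral_congr_fun measurableSet_Icc fun E _ => ?_
    by_cases hE : E ∈ Set.Icc (0 : ℝ) (4 * d)
    · simp only [Set.indicator_of_mem hE]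
      rw [hP1 _ E _ hE, hP1 _ E _ hE, hF, hF, ← mul_sub, abs_mul, abs_of_pos hA0]
    · simp only [Set.indicator_of_notMem hE]
      rw [hP2 _ E _ hE, hP2 _ E _ hE]
      simp
  have hlim : ∀ᵐ E ∂(volume.restrict (Set.Ioo (0 : ℝ) (4 * d))), ∃ L : ℝ, 0 < L ∧
      Tendsto (fun n => (∫ t : ℝ, 1 / ((t : ℂ) - ⟨E, η n⟩) ∂μ).im) atTop (𝓝 L) := by
    rw [ae_restrict_iff' measurableSet_Ioo]
    filter_upwards [hv2] with E hE hE2
    obtain ⟨L, hL0, hL1⟩ := hE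
    refine ⟨Aw v * L, mul_pos hA0 hL0, ?_⟩
    refine (hL1.const_mul (Aw v)).congr fun n => ?_
    rw [hF, hP1 n E v ⟨hE2.1.le, hE2.2.le⟩]
  obtain ⟨h, hh1, hh2, hh3⟩ := hACI μ 0 (4 * d) η hd' (fun n => (hη n).1) hη0 hsum hlim
  exact ⟨μ, h, hμ, hμs, hh1, hh2, hh3⟩

theorem sol_scale {d : ℕ} (K : (Fin d → ℤ) → ℂ) (lam : ℝ) (v : (Fin d → ℤ) → ℝ) (z : ℂ)
    (x : Fin d → ℤ) (w : (Fin d → ℤ) → ℂ) :
    Sol K 1 (fun y => lam * v y) z x w ↔ Sol K lam v z x w := by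
  unfold Sol
  simp only [one_mul]

theorem main : S_CHAIN → S_SPM → S_ACI → S_SHF → S_SCA → S_MZP → S_FIN := by
  intro hCH hSPM hACI hSHF hSCA hM d ν _ C ε hd hC0 hb hat hε
  obtain ⟨lam₀, hlam₀, hmain⟩ := hCH d ν C ε hd hC0 hb hat hε
  refine ⟨lam₀, hlam₀, fun lam hlam hle => ?_⟩
  have hprob : IsProbabilityMeasure (ν.map fun x => lam * x) :=
    Measure.isProbabilityMeasure_map (by fun_prop)
  obtain ⟨f, η, p, hf, hη, hη0, hp, hpa, hch⟩ := hmain lam hlam hle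
  refine ⟨f, hf, ?_⟩
  have hb' : ∀ᵐ x ∂(ν.map fun x => lam * x), |x| ≤ lam * C := by
    rw [ae_map_iff (by fun_prop) (measurableSet_le (by fun_prop) (by fun_prop))]
    filter_upwards [hb] with x hx
    rw [abs_mul, abs_of_pos hlam]
    exact mul_le_mul_of_nonneg_left hx hlam.le
  have h1 := ae_QQ hSPM hACI hM d hd (ν.map fun x => lam * x) (lam * C) hb' f hε hf η p hη hη0 hp
    hpa hch
  have h2 := hSHF (ν.map fun x => lam * x) d _ h1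
  have h3 := hSCA ν lam d _ h2
  have hsh := (hS d (ker f d) lam (fun _ => True) (by simp)).2
  filter_upwards [h3] with v hv
  intro x
  obtain ⟨μ, h, k1, k2, k3, k4, k5⟩ := hv x
  refine ⟨μ, h, k1, fun z hz => ⟨?_, fun w hw => ?_⟩, k3, k4, k5⟩
  · obtain ⟨w, hw⟩ := (k2 z hz).1
    refine ⟨fun y => w (y - x), (hsh v z x _).2 ?_⟩
    have : (fun y => w (y + x - x)) = w := by funext y; rw [add_sub_cancel_right]
    rw [this]
    exact (sol_scale _ _ (fun y => v (y + x)) _ _ _).1 hw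
  · have h4 := (hsh v z x w).1 hw
    have h5 := (k2 z hz).2 _ ((sol_scale _ _ (fun y => v (y + x)) _ _ _).2 h4)
    rw [← h5, zero_add]

end

end Pool.Agent.W156.WAFin
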